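import Pool.Agent.Lib.MP_bf776f_nt.CF.Sieg

/-! The core contradiction inside a complete field with basis `1, T, …` over its powers. -/

namespace Pool.Agent.CF

open Finset

set_option linter.unusedSectionVars false

variable {F M : Type} [NormedField M] {T : M} {ι κ : Type}

/-- The elements that the auxiliary functional has to kill. -/
def KS (q : ℕ) (T : M) (E : ℕ) (u : κ → M) : Set M :=
  {x | (∃ k z, x = ell q T E / D q T 1 * u k * z ^ q) ∨
    ∃ j, 1 ≤ j ∧ j < E ∧ ∃ z, x = ell q T E / D q T (j + 1) * z ^ q ^ j}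

theorem exists_E (C : ℕ) : ∃ E, C ≤ E ∧ C * (E + 3) ^ 2 < 2 ^ E := by
  refine ⟨(36 * C + 1) * 3, by omega, ?_⟩
  have h1 : 36 * C + 1 < 2 ^ (36 * C + 1) := Nat.lt_two_pow_self
  have h2 := Nat.pow_lt_pow_left h1 (show 3 ≠ 0 by omega)
  rw [pow_mul]
  refine lt_of_le_of_lt ?_ h2
  nlinarith [Nat.zero_le C, Nat.zero_le (C ^ 2), Nat.zero_le (C ^ 3)]

variable [Field F] [Fintype F] [Algebra F M] [IsUltrametricDist M]

theorem fam_mem {E s k j a i : ℕ} (hj : j < E) (ha : a ≤ k)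
    (hk : k * Fintype.card F ^ s ≤ Fintype.card F ^ E) (hi : i < Fintype.card F ^ (E - (j + 1))) :
    (T ^ Fintype.card F ^ s) ^ a * ell (Fintype.card F) T E *
      D (Fintype.card F) T (j + 2) ^ (Fintype.card F ^ E - 1) * (T ^ i) ^ Fintype.card F ^ (j + 1) ∈
    Ad F T ((E + (j + 2) * Fintype.card F ^ (j + 2) + 2) * Fintype.card F ^ E) := by
  rw [← pow_mul, ← pow_mul]
  refine Ad_mono ?_ (Ad_mul (Ad_mul (Ad_mul (Ad_T le_rfl) (ell_mem E)) (Ad_pow (D_mem _) _))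
    (Ad_T le_rfl))
  have h1 : i * Fintype.card F ^ (j + 1) ≤ Fintype.card F ^ E := by
    refine (Nat.mul_le_mul_right _ hi.le).trans (le_of_eq ?_)
    rw [← pow_add]; congr 1; omega
  have h2 := Nat.mul_le_mul_left (Fintype.card F ^ s) ha
  have h3 := Nat.mul_le_mul_right ((j + 2) * Fintype.card F ^ (j + 2))
    (Nat.sub_le (Fintype.card F ^ E) 1)
  nlinarith

theorem exists_good [Fintype ι] [Fintype κ] (hT : 1 < ‖T‖) {e : ι → M} {c : ℕ} {b : M}
    {u : κ → M} {k₀ : κ} (hH : Ht F T e c) (hb : b ≠ 0) (hu : u k₀ = 1)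
    (hS : ∀ E, Span (Fintype.card F ^ E) T) (hU : ∀ E, Uniq (Fintype.card F ^ E) T)
    (hcar : ∀ E δ P, P ∈ Ad F T (δ * Fintype.card F ^ E) → ∀ k,
      b ^ Fintype.card F ^ E * (u k * P) ∈ Dec T E (Sp F T e (δ + c)))
    (hq : Fintype.card κ + 2 ≤ Fintype.card F) {E' s k h : ℕ} (hs : 1 ≤ s) (hsE : s ≤ E' + 3)
    (hk : 8 * Fintype.card F * (k + 1) ≤ Fintype.card F ^ s)
    (hk' : k * Fintype.card F ^ s ≤ Fintype.card F ^ (E' + 3))
    (hh : 8 * Fintype.card F * ((E' + 3 + Fintype.card F + 1 + 2 * c) +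
      (k + 2) * ((E' + 3) * Fintype.card F * (2 * (E' + 3) + 3 + 2 * c))) ≤ h) :
    ∃ Λ : M →+ M, Good (Fintype.card F ^ (E' + 3)) (Fintype.card F ^ s) T
        (KS (Fintype.card F) T (E' + 3) u) Λ (Fintype.card F ^ E') k ∧
      (∀ r < Fintype.card F ^ (E' + 3), Λ (T ^ r) ∈ Sp F T e h) ∧
      ∃ r < Fintype.card F ^ (E' + 3), Λ (T ^ r) ≠ 0 := by
  have hF := fr_card (M := M) F
  have hκ : 0 < Fintype.card κ := Fintype.card_pos_iff.2 ⟨k₀⟩
  set q := Fintype.card F with hqd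
  set E := E' + 3 with hE
  have hq3 : 3 ≤ q := by omega
  have hm : q ^ E' ≤ q ^ E := hF.le (by omega)
  let Fam : ℕ → ℕ → Type := fun s k => Σ i : Fin (E - s), Fin (k + 1) × Fin (q ^ (E - s - 1 - i))
  let P : ℕ → ℕ → ℕ → M := fun j a i =>
    (T ^ q ^ s) ^ a * ell q T E * D q T (j + 2) ^ (q ^ E - 1) * (T ^ i) ^ q ^ (j + 1)
  let δ : ℕ → ℕ := fun j => E + (j + 2) * q ^ (j + 2) + 2 + c
  obtain ⟨Λ, h1, h2, h3, h4, h5⟩ := siegel (h := h) hH (hS E) (hU E) (Nat.add_sub_cancel' hm)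
    (κ := (κ × Fin (q ^ (E - 1))) ⊕ (Fam 0 0 ⊕ Fam s k))
    (Sum.elim (fun x => b ^ q ^ E *
        (u x.1 * (ell q T E * D q T 1 ^ (q ^ E - 1) * (T ^ (x.2 : ℕ)) ^ q ^ 1)))
      (Sum.elim (fun x => b ^ q ^ E * (u k₀ * P (0 + x.1) x.2.1 x.2.2))
        (fun x => b ^ q ^ E * (u k₀ * P (s + x.1) x.2.1 x.2.2))))
    (Sum.elim (fun _ => E + q + 1 + c) (Sum.elim (fun x => δ (0 + x.1)) (fun x => δ (s + x.1))))
    (by
      rintro (⟨k, i⟩ | ⟨j, a, i⟩ | ⟨j, a, i⟩)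
      · refine hcar _ _ _ ?_ _
        rw [← pow_mul]
        refine Ad_mono ?_ (Ad_mul (Ad_mul (ell_mem E) (Ad_pow (D_mem _) _)) (Ad_T le_rfl))
        have h1 : i * q ^ 1 ≤ q ^ E := by
          refine (Nat.mul_le_mul_right _ i.2.le).trans (le_of_eq ?_)
          rw [← pow_add]; congr 1
        have h3 := Nat.mul_le_mul_right (1 * q ^ 1) (Nat.sub_le (q ^ E) 1)
        rw [← hqd]
        simp only [pow_one, one_mul] at h1 h3 ⊢
        nlinarith
      · refine hcar _ _ _ (fam_mem (k := 0) (by have := j.2; omega) (by have := a.2; omega)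
          (by simp) (lt_of_lt_of_eq i.2 ?_)) _
        congr 1; dsimp only; omega
      · refine hcar _ _ _ (fam_mem (by have := j.2; omega) (by have := a.2; omega)
          hk' (lt_of_lt_of_eq i.2 ?_)) _
        congr 1; dsimp only; omega)
    (by
      rw [Fintype.sum_sum_type, Fintype.sum_sum_type]
      simp only [Sum.elim_inl, Sum.elim_inr, sum_const, card_univ, Fintype.card_prod,
        Fintype.card_fin, smul_eq_mul]
      have a1 := fam_count (q := q) (E := E) (s := 0) (k := 0) (h := h) (c := c) (by omega)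
      have a2 := fam_count (q := q) (E := E) (s := s) (k := k) (h := h) (c := c) (by omega)
      have e1 : q ^ E = q * q ^ (E - 1) := by rw [← pow_succ']; congr 1
      have e2 : ∀ W, E * (q * q ^ E * W) = q * q ^ (E - 1) * (E * q * W) := fun W => by
        rw [e1]; ring
      rw [e2] at a1 a2
      refine lt_of_le_of_lt (add_le_add (le_of_eq ?_) (add_le_add a1 a2))
        (total_count (m := q ^ E') (O₁ := E + q + 1 + 2 * c) (n := Fintype.card κ)
          (by rw [← e1, ← hqd]; omega) hq ?_ ?_ ?_ (hF.pos _) (by omega))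
      · ring
      · have := geom_bd hq3 (E - 1)
        rw [Nat.sub_zero, show E = E - 1 + 1 by omega, Finset.sum_range_succ,
          Nat.add_sub_cancel]
        omega
      · have b1 := geom_bd hq3 (E - s)
        have b2 : q ^ s * q ^ (E - s) = q * q ^ (E - 1) := by
          rw [← pow_add, ← e1]; congr 1; omega
        have b3 := Nat.mul_le_mul hk (show ∑ i ∈ range (E - s), q ^ i ≤ q ^ (E - s) by omega)
        rw [b2] at b3
        refine Nat.le_of_mul_le_mul_left (c := q) (le_trans (le_of_eq ?_) b3) (by omega)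
        ring
      · rw [show E - 1 = E' + 2 by omega, pow_add]
        nlinarith [Nat.zero_le (q ^ E'), Nat.mul_le_mul hq3 hq3])
  have k1 : ∀ k z, Λ (ell q T E / D q T 1 * u k * z ^ q ^ 1) = 0 := fun k =>
    kill_of hF (by omega) (hS _) h1 hb (D_ne hF hT 1) fun i hi => h5 (Sum.inl (k, ⟨i, hi⟩))
  have k2 : ∀ j, j < E → ∀ z, Λ (ell q T E / D q T (j + 2) * z ^ q ^ (j + 1)) = 0 := by
    intro j hj z
    have := kill_of (A := (T ^ q ^ s) ^ 0 * ell q T E) (u := u k₀) hF (show j + 1 ≤ E by omega)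
      (hS _) h1 hb (D_ne hF hT (j + 2)) (fun i hi => by
        have := h5 (Sum.inr (Sum.inl ⟨⟨j, by omega⟩, 0, ⟨i, lt_of_lt_of_eq hi (by
          congr 1; simp only; omega)⟩⟩))
        simpa only [Sum.elim_inl, Sum.elim_inr, zero_add, P, Fin.val_zero] using this) z
    rwa [hu, pow_zero, one_mul, mul_one] at this
  have k3 : ∀ j, s ≤ j → j < E → ∀ a ≤ k, ∀ z,
      Λ ((T ^ q ^ s) ^ a * (ell q T E / D q T (j + 2) * z ^ q ^ (j + 1))) = 0 := by
    intro j hsj hj a ha z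
    obtain ⟨j, rfl⟩ : ∃ j', j = s + j' := ⟨j - s, by omega⟩
    have := kill_of (A := (T ^ q ^ s) ^ a * ell q T E) (u := u k₀) hF
      (show s + j + 1 ≤ E by omega) (hS _) h1 hb (D_ne hF hT (s + j + 2)) (fun i hi =>
        h5 (Sum.inr (Sum.inr ⟨⟨j, by omega⟩, ⟨a, by omega⟩, ⟨i, lt_of_lt_of_eq hi (by
          congr 1; simp only; omega)⟩⟩))) z
    rw [← this, hu]
    congr 1
    ring
  have hpow : ∀ j ≤ s, ∀ (a : ℕ) (x z : M), (T ^ q ^ s) ^ a * (x * z ^ q ^ j) =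
      x * ((T ^ q ^ (s - j)) ^ a * z) ^ q ^ j := by
    intro j hj a x z
    rw [mul_pow, ← pow_mul (T ^ q ^ (s - j)), mul_comm a, pow_mul, ← pow_mul T (q ^ (s - j)),
      ← pow_add, Nat.sub_add_cancel hj]
    ring
  refine ⟨Λ, ⟨h1, h2, ?_⟩, h3, h4⟩
  rintro a ha x (⟨k, z, rfl⟩ | ⟨j, hj, hjE, z, rfl⟩)
  · have := hpow 1 hs a (ell q T E / D q T 1 * u k) z
    rw [pow_one] at this k1
    rw [this, k1]
  · obtain ⟨j, rfl⟩ : ∃ j', j = j' + 1 := ⟨j - 1, by omega⟩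
    rcases le_or_gt s j with hsj | hsj
    · exact k3 j hsj (by omega) a ha z
    · rw [hpow _ hsj, k2 j (by omega)]

theorem exists_pv_ne {q Q : ℕ} (hF : Fr q M) (hT : 1 < ‖T‖) {Λ : M →+ M} (hS : Semi Q Λ)
    (h : ∃ r < Q, Λ (T ^ r) ≠ 0) : ∃ j, pv Q T Λ (T ^ q ^ (j + 1)) ≠ 0 := by
  by_contra! h0
  obtain ⟨r, hr, hr0⟩ := h
  have h1 : (∑ r ∈ range Q, Polynomial.monomial (Q - 1 - r) (Λ (T ^ r))) = 0 := by
    refine Polynomial.eq_zero_of_infinite_isRoot _ (Set.infinite_of_injective_forall_mem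
      (f := fun j => T ^ q ^ (j + 1)) ((pow_inj hF hT).comp (add_left_injective 1)) fun j => ?_)
    have := h0 j
    rw [pv_eq hS] at this
    simp only [Set.mem_ofPred_eq, Polynomial.IsRoot, Polynomial.eval_finsetSum,
      Polynomial.eval_monomial]
    rw [← this]
    exact Finset.sum_congr rfl fun _ _ => mul_comm _ _
  have h2 := congrArg (fun p => Polynomial.coeff p (Q - 1 - r)) h1
  simp only [Polynomial.finsetSum_coeff, Polynomial.coeff_monomial, Polynomial.coeff_zero] at h2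
  rw [Finset.sum_eq_single r, if_pos rfl] at h2
  · exact hr0 h2
  · intro b hb hbr
    exact if_neg (by have := mem_range.1 hb; omega)
  · intro h
    exact absurd (mem_range.2 hr) h

theorem core [CompleteSpace M] [Fintype κ] (hT : 1 < ‖T‖) {n : ℕ} {e : Fin n → M} {c : ℕ} {b : M}
    {u : κ → M} {k₀ : κ} (hH : Ht F T e c) (hb : b ≠ 0) (hu : u k₀ = 1)
    (hS : ∀ E, Span (Fintype.card F ^ E) T) (hU : ∀ E, Uniq (Fintype.card F ^ E) T)
    (hcar : ∀ E δ P, P ∈ Ad F T (δ * Fintype.card F ^ E) → ∀ k,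
      b ^ Fintype.card F ^ E * (u k * P) ∈ Dec T E (Sp F T e (δ + c)))
    (hq : Fintype.card κ + 2 ≤ Fintype.card F) {w : M} (hw0 : w ≠ 0)
    (hw : HasSum (sig (Fintype.card F) T w) 0) {y : κ → M}
    (hy : w = ∑ k, u k * y k ^ Fintype.card F) : False := by
  have hF := fr_card (M := M) F
  have hT0 : 0 < ‖T‖ := by linarith
  obtain ⟨C, hC⟩ := liou hT hH
  obtain ⟨d, hd⟩ := exists_pow_ge hT (max ‖w‖ ‖w‖⁻¹)
  have hd2 : 1 ≤ ‖w‖ * ‖T‖ ^ d := by
    rw [← mul_inv_cancel₀ (norm_ne_zero_iff.2 hw0)]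
    gcongr
    exact (le_max_right _ _).trans hd
  set q := Fintype.card F with hqd
  have hq2 : 2 ≤ q := hF.1
  set k := q ^ 3 * (4 * (c + C) + 8) with hk
  set s := 8 * q * (k + 1) with hs
  have hs1 : 1 ≤ s := Nat.mul_pos (by omega) (by omega)
  set C₁ := 8 * q * ((q + 2 + 2 * c) + (k + 2) * (q * (5 + 2 * c))) with hC₁
  obtain ⟨E', hE1, hE2⟩ := exists_E (C₁ + 1 + 2 * (d + k * q ^ s) + (c + C) + s)
  set E := E' + 3 with hE
  have hE3 : 1 ≤ E ^ 2 := Nat.one_le_pow _ _ (by omega)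
  have hE4 : E ≤ E ^ 2 := Nat.le_self_pow (by omega) _
  have hm : (C₁ + 1 + 2 * (d + k * q ^ s) + (c + C) + s) * E ^ 2 < q ^ E' :=
    lt_of_lt_of_le hE2 (Nat.pow_le_pow_left hq2 _)
  have hm1 : q ^ E' < q ^ E := hF.lt (by omega)
  have hm2 := Nat.le_mul_of_pos_right (C₁ + 1 + 2 * (d + k * q ^ s) + (c + C) + s) hE3
  have hm3 : (C₁ + 1) * E ^ 2 ≤ (C₁ + 1 + 2 * (d + k * q ^ s) + (c + C) + s) * E ^ 2 :=
    Nat.mul_le_mul_right _ (by omega)
  obtain ⟨Λ, hG, hΛ, hΛ0⟩ := exists_good hT hH hb hu hS hU hcar hq (E' := E') (s := s) (k := k)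
    (h := C₁ * E ^ 2) hs1 (by omega) (Nat.lt_pow_self hq2).le (by rw [← hqd, ← hE]; omega) (by
      rw [← hqd, ← hE, hC₁, mul_assoc (8 * q), add_mul (q + 2 + 2 * c), mul_assoc (k + 2)]
      have a1 : E + q + 1 + 2 * c ≤ (q + 2 + 2 * c) * E ^ 2 := by nlinarith
      have a2 : E * (2 * E + 3 + 2 * c) ≤ (5 + 2 * c) * E ^ 2 := by nlinarith
      have a3 := Nat.mul_le_mul_left q a2
      refine Nat.mul_le_mul_left _ (add_le_add a1 (Nat.mul_le_mul_left _ ?_))
      nlinarith)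
  rw [← hqd, ← hE] at hG hΛ hΛ0
  have hp : ∀ j, pv (q ^ E) T Λ (T ^ q ^ (j + 1)) ∈
      Sp F T e (C₁ * E ^ 2 + (q ^ E - 1 - q ^ E') * q ^ (j + 1)) := by
    intro j
    rw [pv_eq hG.1]
    refine sum_mem fun r hr => ?_
    rcases lt_or_ge r (q ^ E') with h1 | h1
    · rw [hG.2.1 r h1, mul_zero]; exact zero_mem _
    · rw [← pow_mul]
      refine Sp_mono ?_ (Sp_tmul _ (hΛ r (mem_range.1 hr)))
      rw [mul_comm (q ^ (j + 1))]
      gcongr
  refine gap hF hT (E := E) (d := d) (k := k) (R := q ^ s) (h := C₁ * E ^ 2) (c := c + C)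
    (m := q ^ E') (p := fun j => pv (q ^ E) T Λ (T ^ q ^ (j + 1))) ((le_max_left _ _).trans hd)
    hd2 (hF.pos _) hm1 (fun j => ?_) (fun j hj => ?_) (exists_pv_ne hF hT hG.1 hΛ0) (fun J => ?_)
    (by omega) (by nlinarith) (by omega) (by omega) ?_
  · exact (Sp_up hT hH.up (hp j)).trans (pow_le_pow_right₀ hT.le (by omega))
  · refine (hC _ _ (hp j) hj).trans ?_
    gcongr
    · exact hT.le
    · omega
    · omega
  · obtain ⟨Λ', ⟨g1, -, g2⟩, g3⟩ := mult hF (E := E) (R := q ^ s) (S := KS q T E u)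
      (fun j => (T ^ q ^ (j + 1)) ^ q ^ s) (Ioc J (J + k)) (m := q ^ E' - k * q ^ s) (κ := 0)
      (Λ := Λ) (by
        rwa [Nat.card_Ioc, Nat.add_sub_cancel_left, Nat.sub_add_cancel (by omega), zero_add])
    have g4 : ∀ x ∈ KS q T E u, Λ' x = 0 := fun x hx => by simpa using g2 0 le_rfl x hx
    have := ident hF hT hw (E := E) (by omega) g1 ?_ (fun z => g4 _ (Or.inl ⟨k₀, z, ?_⟩))
      (fun j h1 h2 z => g4 _ (Or.inr ⟨j, h1, h2, z, rfl⟩))
    · simpa only [g3] using this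
    · rw [hy, Finset.mul_sum, map_sum]
      exact Finset.sum_eq_zero fun k _ => g4 _ (Or.inl ⟨k, y k, by ring⟩)
    · rw [hu, mul_one]
  · have a1 : k ≤ q ^ (k + 1) := (Nat.lt_pow_self hq2).le.trans (hF.le (by omega))
    have a2 := Nat.mul_le_mul_right (q ^ E') a1
    refine le_trans (le_of_eq ?_) a2
    rw [hE, hk]; ring

end Pool.Agent.CF
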