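import Mathlib

/-! The Carlitz exponential on a complete ultrametric field. -/

namespace Pool.Agent.CF

open Finset

/-- The Carlitz factorial `D_i = ∏_{u < i} (T^(q^i) - T^(q^u))`. -/
def D {Ω : Type} [NormedField Ω] (q : ℕ) (T : Ω) (i : ℕ) : Ω :=
  ∏ u ∈ range i, (T ^ (q ^ i) - T ^ (q ^ u))

/-- The Carlitz exponential `e(z) = ∑ z^(q^i) / D_i`. -/
noncomputable def ex {Ω : Type} [NormedField Ω] (q : ℕ) (T z : Ω) : Ω :=
  ∑' i : ℕ, z ^ (q ^ i) / D q T i

/-- The rational function field `K = F(T)`. -/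
def K (F : Type) {Ω : Type} [Field F] [NormedField Ω] [Algebra F Ω] (T : Ω) : Subfield Ω :=
  (IntermediateField.adjoin F {T}).toSubfield

/-- The completion `K_∞ = F((1/T))`: the closure of `F(T)`. -/
def Kinf (F : Type) {Ω : Type} [Field F] [NormedField Ω] [Algebra F Ω] (T : Ω) : Subfield Ω :=
  (K F T).topologicalClosure

end Pool.Agent.CF
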