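import Pool.Agent.Lib.MP_bf776f_nt.CF.Ident

/-! The multiplier that removes a block of poles, and the resulting gap. -/

namespace Pool.Agent.CF

open Finset Filter Topology

set_option linter.unusedSectionVars false

variable {M : Type} [NormedField M] {q : ℕ} {T : M}

/-- `Λ` is semilinear, kills `T^r` for `r < m` and `(T^R)^a x` for `a ≤ κ`, `x ∈ S`. -/
def Good (Q R : ℕ) (T : M) (S : Set M) (Λ : M →+ M) (m κ : ℕ) : Prop :=
  Semi Q Λ ∧ (∀ r < m, Λ (T ^ r) = 0) ∧ ∀ a ≤ κ, ∀ x ∈ S, Λ ((T ^ R) ^ a * x) = 0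

theorem mult_step (h : Fr q M) {E R m κ : ℕ} {S : Set M} {Λ : M →+ M}
    (hG : Good (q ^ E) R T S Λ (m + R) (κ + 1)) (β : M) :
    ∃ Λ' : M →+ M, Good (q ^ E) R T S Λ' m κ ∧
      ∀ γ, pv (q ^ E) T Λ' γ = (γ ^ R - β) * pv (q ^ E) T Λ γ := by
  obtain ⟨hS, h0, hK⟩ := hG
  have key : ∀ z, Λ ((T ^ R - β ^ q ^ E) * z) = Λ (T ^ R * z) - β * Λ z := fun z => by
    rw [sub_mul, map_sub, hS]
  refine ⟨Λ.comp (AddMonoidHom.mulLeft (T ^ R - β ^ q ^ E)), ⟨fun k z => ?_, fun r hr => ?_,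
    fun a ha x hx => ?_⟩, fun γ => ?_⟩
  · simp only [AddMonoidHom.comp_apply, AddMonoidHom.coe_mulLeft]
    rw [mul_left_comm, hS]
  · simp only [AddMonoidHom.comp_apply, AddMonoidHom.coe_mulLeft]
    rw [key, ← pow_add, h0 _ (by omega), h0 _ (by omega), mul_zero, sub_zero]
  · simp only [AddMonoidHom.comp_apply, AddMonoidHom.coe_mulLeft]
    rw [key, ← mul_assoc, ← pow_succ', hK _ (by omega) x hx, hK _ (by omega) x hx, mul_zero,
      sub_zero]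
  · simp only [pv, AddMonoidHom.comp_apply, AddMonoidHom.coe_mulLeft]
    rw [key, sub_mul]
    congr 1
    set y := γ ^ q ^ E with hy
    set g := ∑ r ∈ range (q ^ E), T ^ r * y ^ (q ^ E - 1 - r) with hg
    have e1 := geom_sum₂_mul T y (q ^ E)
    have e2 := geom_sum₂_mul T y R
    have e3 := h.sub E T y
    have e4 : T ^ R * g = (γ ^ R) ^ q ^ E * g +
        ∑ i ∈ range R, ((T - y) * γ ^ (R - 1 - i)) ^ q ^ E * T ^ i := by
      have e5 : ∀ i, ((T - y) * γ ^ (R - 1 - i)) ^ q ^ E * T ^ i =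
          (T - y) ^ q ^ E * (T ^ i * y ^ (R - 1 - i)) := fun i => by
        rw [mul_pow, ← pow_mul γ, mul_comm (R - 1 - i), pow_mul γ, ← hy]; ring
      rw [Finset.sum_congr rfl fun i _ => e5 i, ← Finset.mul_sum, ← pow_mul γ, mul_comm R,
        pow_mul γ, ← hy, e3, ← e1]
      linear_combination (-g) * e2
    rw [e4, map_add, hS, map_sum Λ _ (range R), Finset.sum_eq_zero, add_zero]
    intro i hi
    rw [hS, h0 _ (by have := mem_range.1 hi; omega), mul_zero]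

theorem mult (h : Fr q M) {E R : ℕ} {S : Set M} (β : ℕ → M) (I : Finset ℕ) :
    ∀ {m κ : ℕ} {Λ : M →+ M}, Good (q ^ E) R T S Λ (m + I.card * R) (κ + I.card) →
    ∃ Λ' : M →+ M, Good (q ^ E) R T S Λ' m κ ∧
      ∀ γ, pv (q ^ E) T Λ' γ = (∏ j ∈ I, (γ ^ R - β j)) * pv (q ^ E) T Λ γ := by
  induction I using Finset.induction_on with
  | empty => intro m κ Λ hG; exact ⟨Λ, by simpa using hG, by simp⟩
  | insert a I ha ih =>
    intro m κ Λ hG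
    rw [card_insert_of_notMem ha, show m + (I.card + 1) * R = m + R + I.card * R by ring,
      show κ + (I.card + 1) = κ + 1 + I.card by ring] at hG
    obtain ⟨Λ₁, h1, h2⟩ := ih hG
    obtain ⟨Λ₂, h3, h4⟩ := mult_step h h1 (β a)
    exact ⟨Λ₂, h3, fun γ => by rw [h4, h2, prod_insert ha, mul_assoc]⟩

theorem gap_num {d k R h c m M1 Q J j X X0 y y0 P : ℕ} (hQ : Q = M1 + m + 1) (hy : y ≤ X)
    (hy0 : y0 ≤ X0) (hX0 : 1 ≤ X0) (hX : P * X0 ≤ X) (hXX : X0 ≤ X) (hj : J ≤ j)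
    (h1 : 2 * (d + k * R) ≤ m) (h2 : h + 1 ≤ Q) (h3 : d ≤ Q) (h4 : c ≤ Q)
    (h5 : (4 * c + 8) * Q ≤ P * m) :
    d * y + k * (X * R) + (h + c + M1 * X) +
      ((J + 1) * X0 + X0 * Q + d * y0 + c * (h + Q * X0 + 1)) + 1 ≤ (j + 1) * X + X * Q := by
  have a1 : d * y ≤ d * X := Nat.mul_le_mul_left _ hy
  have a2 : d * y0 ≤ Q * X0 := Nat.mul_le_mul h3 hy0
  have a3 : 2 * (d + k * R) * X ≤ m * X := Nat.mul_le_mul_right _ h1
  have a4 : Q ≤ Q * X0 := Nat.le_mul_of_pos_right _ hX0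
  have a5 : c * (h + 1) ≤ c * (Q * X0) := Nat.mul_le_mul_left _ (h2.trans a4)
  have a6 : (4 * c + 8) * Q * X0 ≤ P * m * X0 := Nat.mul_le_mul_right _ h5
  have a7 : m * (P * X0) ≤ m * X := Nat.mul_le_mul_left _ hX
  have a8 : (J + 1) * X0 ≤ (j + 1) * X := Nat.mul_le_mul (by omega) hXX
  have a9 : X * Q = M1 * X + m * X + X := by rw [hQ]; ring
  nlinarith

variable [IsUltrametricDist M] [CompleteSpace M]

theorem gap (hF : Fr q M) (hT : 1 < ‖T‖) {w : M} {E d k R h c m : ℕ} {p : ℕ → M}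
    (hw1 : ‖w‖ ≤ ‖T‖ ^ d) (hw2 : 1 ≤ ‖w‖ * ‖T‖ ^ d) (hR : 0 < R) (hm : m < q ^ E)
    (hup : ∀ j, ‖p j‖ ≤ ‖T‖ ^ (h + c + (q ^ E - 1 - m) * q ^ (j + 1)))
    (hlow : ∀ j, p j ≠ 0 → 1 ≤ ‖p j‖ * ‖T‖ ^ (c * (h + q ^ E * q ^ (j + 1) + 1)))
    (hex : ∃ j, p j ≠ 0)
    (hid : ∀ J, HasSum (fun j => sig q T w j * ((∏ j' ∈ Ioc J (J + k),
      ((T ^ q ^ (j + 1)) ^ R - (T ^ q ^ (j' + 1)) ^ R)) * p j) / (T ^ q ^ (j + 1 + E) - T)) 0)
    (h1 : 2 * (d + k * R) ≤ m) (h2 : h + 1 ≤ q ^ E) (h3 : d ≤ q ^ E) (h4 : c ≤ q ^ E)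
    (h5 : (4 * c + 8) * q ^ E ≤ q ^ (k + 1) * m) : False := by
  classical
  have hT0 : 0 < ‖T‖ := by linarith
  set J := Nat.find hex with hJ
  have hpJ : p J ≠ 0 := Nat.find_spec hex
  set g : ℕ → M := fun j => ∏ j' ∈ Ioc J (J + k),
    ((T ^ q ^ (j + 1)) ^ R - (T ^ q ^ (j' + 1)) ^ R) with hg
  set f : ℕ → M := fun j => sig q T w j * (g j * p j) / (T ^ q ^ (j + 1 + E) - T) with hf
  have hs : HasSum f 0 := hid J
  have hn : ∀ j, ‖f j‖ * ‖T‖ ^ ((j + 1) * q ^ (j + 1) + q ^ (j + 1) * q ^ E) =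
      ‖w‖ ^ q ^ j * ‖g j‖ * ‖p j‖ := by
    intro j
    simp only [hf, sig]
    rw [norm_div, norm_mul, norm_div, norm_mul, norm_D hF hT, norm_Y hF hT (by omega), norm_pow,
      pow_add q (j + 1) E, pow_add ‖T‖]
    field_simp
  have hgJ : 1 ≤ ‖g J‖ := by
    simp only [hg]
    rw [norm_prod]
    refine Finset.one_le_prod fun j' hj' => ?_
    rw [norm_sub_rev, ← pow_mul, ← pow_mul, norm_sub_pow hT
      (Nat.mul_lt_mul_of_pos_right (hF.lt (by have := (mem_Ioc.1 hj').1; omega)) hR)]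
    exact one_le_pow₀ hT.le
  set e := (J + 1) * q ^ (J + 1) + q ^ (J + 1) * q ^ E + d * q ^ J +
    c * (h + q ^ E * q ^ (J + 1) + 1) with he
  have hfJ : 1 ≤ ‖f J‖ * ‖T‖ ^ e := by
    have a1 : 1 ≤ ‖w‖ ^ q ^ J * ‖T‖ ^ (d * q ^ J) := by
      rw [pow_mul, ← mul_pow]; exact one_le_pow₀ hw2
    have a2 := hlow J hpJ
    calc (1 : ℝ) ≤ (‖w‖ ^ q ^ J * ‖T‖ ^ (d * q ^ J)) * ‖g J‖ *
          (‖p J‖ * ‖T‖ ^ (c * (h + q ^ E * q ^ (J + 1) + 1))) :=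
          one_le_mul_of_one_le_of_one_le (one_le_mul_of_one_le_of_one_le a1 hgJ) a2
      _ = (‖w‖ ^ q ^ J * ‖g J‖ * ‖p J‖) * ‖T‖ ^ (d * q ^ J) *
          ‖T‖ ^ (c * (h + q ^ E * q ^ (J + 1) + 1)) := by ring
      _ = _ := by rw [← hn, he, pow_add _ _ (c * _), pow_add _ _ (d * _)]; ring
  have hf0 : 0 < ‖f J‖ := by
    by_contra h0
    have : ‖f J‖ = 0 := le_antisymm (not_lt.1 h0) (norm_nonneg _)
    rw [this, zero_mul] at hfJ
    linarith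
  have hb : ∀ j, ‖if j = J then 0 else f j‖ ≤ ‖f J‖ / ‖T‖ := by
    intro j
    have hz : 0 ≤ ‖f J‖ / ‖T‖ := by positivity
    split_ifs with hj
    · simpa using hz
    rcases lt_or_gt_of_ne hj with hj | hj
    · have : p j = 0 := by simpa using Nat.find_min hex hj
      simpa [hf, this] using hz
    rcases le_or_gt j (J + k) with hj' | hj'
    · have : g j = 0 := Finset.prod_eq_zero (mem_Ioc.2 ⟨hj, hj'⟩) (sub_self _)
      simpa [hf, this] using hz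
    have b1 : ‖g j‖ ≤ ‖T‖ ^ (k * (q ^ (j + 1) * R)) := by
      simp only [hg]
      rw [norm_prod]
      refine (Finset.prod_le_prod (g := fun _ => ‖T‖ ^ (q ^ (j + 1) * R))
        (fun _ _ => norm_nonneg _) fun j' hj'' => ?_).trans (le_of_eq ?_)
      · rw [← pow_mul, ← pow_mul]
        refine norm_sub_le' (by rw [norm_pow]) ?_
        rw [norm_pow]
        exact pow_le_pow_right₀ hT.le (Nat.mul_le_mul_right _
          (hF.le (by have := (mem_Ioc.1 hj'').2; omega)))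
      · rw [prod_const, Nat.card_Ioc, ← pow_mul, Nat.add_sub_cancel_left, mul_comm]
    have b2 : ‖w‖ ^ q ^ j ≤ ‖T‖ ^ (d * q ^ j) := by
      rw [pow_mul]; gcongr
    set b := d * q ^ j + k * (q ^ (j + 1) * R) + (h + c + (q ^ E - 1 - m) * q ^ (j + 1)) with hb
    have b3 : ‖f j‖ * ‖T‖ ^ ((j + 1) * q ^ (j + 1) + q ^ (j + 1) * q ^ E) ≤ ‖T‖ ^ b := by
      rw [hn, hb, pow_add, pow_add]
      have := hup j
      gcongr
    have b4 : b + e + 1 ≤ (j + 1) * q ^ (j + 1) + q ^ (j + 1) * q ^ E :=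
      gap_num (P := q ^ (k + 1)) (by omega) (hF.le (by omega)) (hF.le (by omega)) (hF.pos _)
        (by rw [← pow_add]; exact hF.le (by omega)) (hF.le (by omega)) hj.le h1 h2 h3 h4 h5
    rw [le_div_iff₀ hT0]
    refine le_of_mul_le_mul_right ?_ (pow_pos hT0 (b + e))
    calc ‖f j‖ * ‖T‖ * ‖T‖ ^ (b + e) = ‖f j‖ * ‖T‖ ^ (b + e + 1) := by ring
      _ ≤ ‖f j‖ * ‖T‖ ^ ((j + 1) * q ^ (j + 1) + q ^ (j + 1) * q ^ E) := by
          gcongr; exact hT.le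
      _ ≤ ‖T‖ ^ b * 1 := by rw [mul_one]; exact b3
      _ ≤ ‖T‖ ^ b * (‖f J‖ * ‖T‖ ^ e) := by gcongr
      _ = _ := by ring
  have h6 := hs.summable.tsum_eq_add_tsum_ite J
  rw [hs.tsum_eq] at h6
  have h7 := IsUltrametricDist.norm_tsum_le_of_forall_le hb
  rw [eq_neg_of_add_eq_zero_right h6.symm, norm_neg, le_div_iff₀ hT0] at h7
  nlinarith

end Pool.Agent.CF
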