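import Pool.Agent.Lib.MP_bf776f_nt.CF.Nrm

/-! Height filtrations: the spaces spanned by `T^i e_t`, `i ≤ H`. -/

namespace Pool.Agent.CF

open Finset

set_option linter.unusedSectionVars false

variable {F M : Type} [Field F] [NormedField M] [Algebra F M] {T : M} {ι κ μ : Type}

/-- The `F`-span of the `T^i e_t` with `i ≤ H`. -/
def Sp (F : Type) [Field F] [Algebra F M] (T : M) (e : ι → M) (H : ℕ) : Submodule F M :=
  Submodule.span F (Set.range fun p : Fin (H + 1) × ι => T ^ (p.1 : ℕ) * e p.2)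

/-- Polynomials in `T` of degree at most `d`. -/
def Ad (F : Type) [Field F] [Algebra F M] (T : M) (d : ℕ) : Submodule F M :=
  Sp F T (fun _ : Unit => 1) d

theorem Sp_gen {e : ι → M} {H i : ℕ} (hi : i ≤ H) (t : ι) : T ^ i * e t ∈ Sp F T e H :=
  Submodule.subset_span ⟨(⟨i, by omega⟩, t), rfl⟩

theorem Sp_map {e : ι → M} {H : ℕ} (f : M →ₗ[F] M) (p : Submodule F M)
    (h : ∀ i ≤ H, ∀ t, f (T ^ i * e t) ∈ p) {x : M} (hx : x ∈ Sp F T e H) : f x ∈ p := by
  have : Sp F T e H ≤ p.comap f := Submodule.span_le.2 (by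
    rintro _ ⟨⟨i, t⟩, rfl⟩
    exact h i (by omega) t)
  exact this hx

theorem Sp_mono {e : ι → M} {H H' : ℕ} (h : H ≤ H') {x : M} (hx : x ∈ Sp F T e H) :
    x ∈ Sp F T e H' :=
  Sp_map LinearMap.id _ (fun _ hi t => Sp_gen (hi.trans h) t) hx

theorem Sp_tmul {e : ι → M} {H : ℕ} (d : ℕ) {x : M} (hx : x ∈ Sp F T e H) :
    T ^ d * x ∈ Sp F T e (H + d) :=
  Sp_map (LinearMap.mulLeft F (T ^ d)) _ (fun i hi t => by
    rw [LinearMap.mulLeft_apply, ← mul_assoc, ← pow_add]; exact Sp_gen (by omega) t) hx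

theorem Sp_scale {e : ι → M} {f : κ → M} {b : M} {H c : ℕ} (h : ∀ t, b * e t ∈ Sp F T f c)
    {x : M} (hx : x ∈ Sp F T e H) : b * x ∈ Sp F T f (H + c) :=
  Sp_map (LinearMap.mulLeft F b) _ (fun i hi t => by
    rw [LinearMap.mulLeft_apply, mul_left_comm]
    exact Sp_mono (by omega) (Sp_tmul i (h t))) hx

theorem Sp_mul {e : ι → M} {f : κ → M} {g : μ → M} {H H' c : ℕ}
    (h : ∀ s t, e s * f t ∈ Sp F T g c) {x y : M} (hx : x ∈ Sp F T e H) (hy : y ∈ Sp F T f H') :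
    x * y ∈ Sp F T g (H + H' + c) :=
  Sp_map (LinearMap.mulRight F y) _ (fun i hi s => by
    rw [LinearMap.mulRight_apply, mul_assoc]
    exact Sp_mono (by omega) (Sp_tmul i (Sp_scale (h s) hy))) hx

theorem Sp_self {e : ι → M} (t : ι) : e t ∈ Sp F T e 0 := by
  simpa using Sp_gen (F := F) (T := T) (e := e) (le_refl 0) t

theorem Ad_smul {e : ι → M} {d H : ℕ} {a x : M} (ha : a ∈ Ad F T d) (hx : x ∈ Sp F T e H) :
    a * x ∈ Sp F T e (d + H) :=
  Sp_mul (c := 0) (fun _ t => by rw [one_mul]; exact Sp_self t) ha hx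

theorem Ad_mul {d d' : ℕ} {a b : M} (ha : a ∈ Ad F T d) (hb : b ∈ Ad F T d') :
    a * b ∈ Ad F T (d + d') := Ad_smul ha hb

theorem Ad_T {i d : ℕ} (h : i ≤ d) : T ^ i ∈ Ad F T d := by
  simpa [Ad] using Sp_gen (F := F) (T := T) (e := fun _ : Unit => (1 : M)) h ()

theorem Ad_one : (1 : M) ∈ Ad F T 0 := Sp_self (e := fun _ : Unit => (1 : M)) ()

theorem Ad_mono {d d' : ℕ} (h : d ≤ d') {a : M} (ha : a ∈ Ad F T d) : a ∈ Ad F T d' :=
  Sp_mono h ha

theorem Ad_prod {d : ℕ} (s : Finset ι) {f : ι → M} (h : ∀ i ∈ s, f i ∈ Ad F T d) :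
    ∏ i ∈ s, f i ∈ Ad F T (s.card * d) := by
  induction s using Finset.cons_induction with
  | empty => simpa using Ad_one
  | cons a s ha ih =>
    rw [prod_cons, card_cons]
    exact Ad_mono (by ring_nf; rfl) (Ad_mul (h a (mem_cons_self _ _))
      (ih fun i hi => h i (mem_cons_of_mem hi)))

theorem Ad_pow {d : ℕ} {a : M} (ha : a ∈ Ad F T d) (n : ℕ) : a ^ n ∈ Ad F T (n * d) := by
  simpa using Ad_prod (range n) (f := fun _ => a) fun _ _ => ha

instance Sp_fin [Finite ι] (e : ι → M) (H : ℕ) : FiniteDimensional F (Sp F T e H) :=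
  FiniteDimensional.span_of_finite F (Set.finite_range _)

theorem Sp_rank [Fintype ι] (e : ι → M) (H : ℕ) :
    Module.finrank F (Sp F T e H) ≤ (H + 1) * Fintype.card ι := by
  have := finrank_range_le_card (R := F)
    fun p : Fin (H + 1) × ι => T ^ (p.1 : ℕ) * e p.2
  rwa [Fintype.card_prod, Fintype.card_fin] at this

variable [Fintype F]

theorem exists_frobL (E : ℕ) : ∃ φ : M →ₗ[F] M, ∀ z, φ z = z ^ Fintype.card F ^ E :=
  ⟨{ toFun := fun z => z ^ Fintype.card F ^ E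
     map_add' := (fr_card F).add E
     map_smul' := fun c z => by simp [smul_pow, FiniteField.pow_card_pow] }, fun _ => rfl⟩

theorem Sp_frob {e : ι → M} {H : ℕ} (E : ℕ) {x : M} (hx : x ∈ Sp F T e H) :
    x ^ Fintype.card F ^ E ∈
      Sp F T (fun t => e t ^ Fintype.card F ^ E) (H * Fintype.card F ^ E) := by
  obtain ⟨φ, hφ⟩ := exists_frobL (F := F) (M := M) E
  rw [← hφ]
  refine Sp_map φ _ (fun i hi t => ?_) hx
  rw [hφ, mul_pow, ← pow_mul]
  exact Sp_gen (e := fun t => e t ^ Fintype.card F ^ E) (Nat.mul_le_mul_right _ hi) t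

/-- Elements `∑_{r < Q} T^r y_r^Q` with all `y_r` in `p`. -/
def Dec (T : M) (E : ℕ) (p : Submodule F M) : Submodule F M where
  carrier := {x | ∃ y : ℕ → M, (∀ r, y r ∈ p) ∧
    x = ∑ r ∈ range (Fintype.card F ^ E), T ^ r * y r ^ Fintype.card F ^ E}
  add_mem' := by
    rintro _ _ ⟨y, hy, rfl⟩ ⟨z, hz, rfl⟩
    refine ⟨fun r => y r + z r, fun r => add_mem (hy r) (hz r), ?_⟩
    rw [← Finset.sum_add_distrib]
    exact Finset.sum_congr rfl fun r _ => by rw [(fr_card F).add, mul_add]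
  zero_mem' := ⟨fun _ => 0, fun _ => zero_mem _, by
    simp [zero_pow ((fr_card (M := M) F).pos E).ne']⟩
  smul_mem' := by
    rintro c _ ⟨y, hy, rfl⟩
    refine ⟨fun r => c • y r, fun r => p.smul_mem c (hy r), ?_⟩
    rw [Finset.smul_sum]
    exact Finset.sum_congr rfl fun r _ => by
      rw [smul_pow, FiniteField.pow_card_pow, mul_smul_comm]

theorem Dec_single {E r : ℕ} {p : Submodule F M} (hr : r < Fintype.card F ^ E) {z : M}
    (hz : z ∈ p) : T ^ r * z ^ Fintype.card F ^ E ∈ Dec T E p := by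
  refine ⟨fun r' => if r' = r then z else 0, fun r' => ?_, ?_⟩
  · dsimp only
    split_ifs
    · exact hz
    · exact zero_mem _
  · rw [Finset.sum_eq_single r]
    · simp
    · intro b _ hb
      simp [hb, zero_pow ((fr_card (M := M) F).pos E).ne']
    · intro h
      exact absurd (mem_range.2 hr) h

theorem dec_of_Sp {e : ι → M} {E δ : ℕ} {x : M}
    (hx : x ∈ Sp F T (fun t => e t ^ Fintype.card F ^ E) (δ * Fintype.card F ^ E)) :
    x ∈ Dec T E (Sp F T e δ) := by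
  refine Sp_map LinearMap.id _ (fun i hi t => ?_) hx
  have hQ := (fr_card (M := M) F).pos E
  have h1 : T ^ i * e t ^ Fintype.card F ^ E = T ^ (i % Fintype.card F ^ E) *
      (T ^ (i / Fintype.card F ^ E) * e t) ^ Fintype.card F ^ E := by
    rw [mul_pow, ← pow_mul, ← mul_assoc, ← pow_add, Nat.mod_add_div']
  rw [LinearMap.id_apply, h1]
  exact Dec_single (Nat.mod_lt _ hQ) (Sp_gen (Nat.div_le_of_le_mul (by rwa [mul_comm])) t)

theorem frob_iter {e : ι → M} {b : M} {c : ℕ} (hb : b ∈ Ad F T c)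
    (h : ∀ t, b * e t ∈ Sp F T (fun t => e t ^ Fintype.card F) c) (E : ℕ) (t : ι) :
    b ^ Fintype.card F ^ E * e t ∈
      Sp F T (fun t => e t ^ Fintype.card F ^ E) (2 * c * Fintype.card F ^ E) := by
  induction E with
  | zero =>
    simp only [pow_zero, pow_one]
    exact Sp_mono (by omega) (Ad_smul hb (Sp_self t))
  | succ E ih =>
    obtain ⟨r, hr⟩ : ∃ r, Fintype.card F = r + 2 :=
      ⟨Fintype.card F - 2, by have := Fintype.one_lt_card (α := F); omega⟩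
    have h1 : ∀ s, b ^ Fintype.card F ^ E * e s ^ Fintype.card F ^ E ∈
        Sp F T (fun t => e t ^ Fintype.card F ^ (E + 1)) (c * Fintype.card F ^ E) := by
      intro s
      have := Sp_frob E (h s)
      rw [mul_pow] at this
      simpa only [← pow_mul, ← pow_succ'] using this
    have h2 := Ad_smul (Ad_pow hb (Fintype.card F ^ E * r)) (Sp_scale h1 ih)
    rw [← mul_assoc, ← mul_assoc, ← pow_add, ← pow_add, show Fintype.card F ^ E * r +
      Fintype.card F ^ E + Fintype.card F ^ E = Fintype.card F ^ (E + 1) by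
        rw [pow_succ]; nth_rewrite 5 [hr]; ring] at h2
    refine Sp_mono ?_ h2
    rw [pow_succ]
    nth_rewrite 5 [hr]
    nlinarith [Nat.zero_le (c * Fintype.card F ^ E * r), Nat.zero_le (c * Fintype.card F ^ E)]

theorem car {e : ι → M} {b b' u P : M} {c E δ : ℕ} (hb : b ∈ Ad F T c) (hb' : b' ∈ Ad F T c)
    (h : ∀ t, b * e t ∈ Sp F T (fun t => e t ^ Fintype.card F) c) (hu : b' * u ∈ Sp F T e c)
    (hP : P ∈ Ad F T (δ * Fintype.card F ^ E)) :
    (b * b') ^ Fintype.card F ^ E * (u * P) ∈ Dec T E (Sp F T e (δ + 4 * c)) := by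
  obtain ⟨r, hr⟩ : ∃ r, Fintype.card F ^ E = r + 1 :=
    ⟨Fintype.card F ^ E - 1, by have := (fr_card (M := M) F).pos E; omega⟩
  have h1 := Sp_scale (frob_iter hb h E) (Ad_smul (Ad_mul (Ad_pow hb' r) hP) hu)
  refine dec_of_Sp ?_
  have h2 : (b * b') ^ Fintype.card F ^ E * (u * P) =
      b ^ Fintype.card F ^ E * (b' ^ r * P * (b' * u)) := by
    rw [mul_pow]; nth_rewrite 2 [hr]; ring
  rw [h2]
  refine Sp_mono ?_ h1
  rw [hr]
  nlinarith [Nat.zero_le (c * r)]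

theorem norm_const {c : F} (hc : c ≠ 0) : ‖algebraMap F M c‖ = 1 := by
  have h1 : ‖algebraMap F M c‖ ^ (Fintype.card F - 1) = 1 := by
    rw [← norm_pow, ← map_pow, FiniteField.pow_card_sub_one_eq_one c hc, map_one, norm_one]
  exact (pow_eq_one_iff_of_nonneg (norm_nonneg _)
    (by have := Fintype.one_lt_card (α := F); omega)).1 h1

theorem norm_smul_c {c : F} (hc : c ≠ 0) (x : M) : ‖c • x‖ = ‖x‖ := by
  rw [Algebra.smul_def, norm_mul, norm_const hc, one_mul]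

variable [IsUltrametricDist M]

theorem Sp_up (hT : 1 < ‖T‖) {e : ι → M} {c H : ℕ} (h : ∀ t, ‖e t‖ ≤ ‖T‖ ^ c) {x : M}
    (hx : x ∈ Sp F T e H) : ‖x‖ ≤ ‖T‖ ^ (H + c) := by
  induction hx using Submodule.span_induction with
  | mem x hx =>
    obtain ⟨⟨i, t⟩, rfl⟩ := hx
    rw [norm_mul, norm_pow, pow_add]
    have := h t
    gcongr
    · exact hT.le
    · exact Nat.lt_succ_iff.1 i.2
  | zero => simp
  | add x y _ _ hx hy => exact norm_add_le' hx hy
  | smul a x _ hx =>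
    by_cases ha : a = 0
    · simp [ha]
    · rwa [norm_smul_c ha]

theorem orth {s : Finset ι} {f : ι → M}
    (h : ∀ i ∈ s, ∀ j ∈ s, i ≠ j → f i ≠ 0 → f j ≠ 0 → ‖f i‖ ≠ ‖f j‖) {i : ι} (hi : i ∈ s) :
    ‖f i‖ ≤ ‖∑ j ∈ s, f j‖ := by
  classical
  by_cases h0 : f i = 0
  · simp [h0]
  rw [← Finset.sum_filter_ne_zero, IsUltrametricDist.norm_sum_eq_sup'_of_pairwise_ne
    ⟨i, mem_filter.2 ⟨hi, h0⟩⟩ fun a ha b hb hab => h a (mem_filter.1 ha).1 b (mem_filter.1 hb).1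
      hab (mem_filter.1 ha).2 (mem_filter.1 hb).2]
  exact Finset.le_sup' (fun i => ‖f i‖) (mem_filter.2 ⟨hi, h0⟩)

theorem orth_T (hT : 1 < ‖T‖) {d : ℕ} (g : Fin d → F) (i : Fin d) :
    ‖g i • T ^ (i : ℕ)‖ ≤ ‖∑ j, g j • T ^ (j : ℕ)‖ := by
  refine orth (f := fun j : Fin d => g j • T ^ (j : ℕ)) (fun a _ b _ hab ha hb h => hab ?_)
    (mem_univ i)
  rw [norm_smul_c (left_ne_zero_of_smul ha), norm_smul_c (left_ne_zero_of_smul hb), norm_pow,
    norm_pow] at h
  exact Fin.ext (pow_right_injective₀ (by linarith) hT.ne' h)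

theorem li_T (hT : 1 < ‖T‖) (d : ℕ) : LinearIndependent F fun i : Fin d => T ^ (i : ℕ) := by
  refine Fintype.linearIndependent_iff.2 fun g hg i => ?_
  have h1 := orth_T hT g i
  rw [hg, norm_zero, norm_le_zero_iff, smul_eq_zero] at h1
  refine h1.resolve_right (pow_ne_zero _ ?_)
  rw [← norm_pos_iff]; linarith

theorem Ad_norm (hT : 1 < ‖T‖) {d : ℕ} {a : M} (ha : a ∈ Ad F T d) (h0 : a ≠ 0) :
    ∃ i : ℕ, ‖a‖ = ‖T‖ ^ i := by
  obtain ⟨g, rfl⟩ := (Submodule.mem_span_range_iff_exists_fun F).1 ha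
  simp only [Fintype.sum_prod_type, univ_unique, sum_singleton, mul_one] at h0 ⊢
  obtain ⟨i, -, hi⟩ := IsUltrametricDist.exists_norm_finsetSum_le univ
    fun j : Fin (d + 1) => g (j, default) • T ^ (j : ℕ)
  have h1 := le_antisymm hi (orth_T hT (fun j => g (j, default)) i)
  refine ⟨i, ?_⟩
  have h2 : g (i, default) ≠ 0 := fun h => h0 (by rwa [h, zero_smul, norm_zero, norm_eq_zero] at h1)
  rw [h1, norm_smul_c h2, norm_pow]

theorem Ad_low (hT : 1 < ‖T‖) {d : ℕ} {a : M} (ha : a ∈ Ad F T d) (h0 : a ≠ 0) : 1 ≤ ‖a‖ := by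
  obtain ⟨i, hi⟩ := Ad_norm hT ha h0
  rw [hi]; exact one_le_pow₀ hT.le

theorem Ad_up (hT : 1 < ‖T‖) {d : ℕ} {a : M} (ha : a ∈ Ad F T d) : ‖a‖ ≤ ‖T‖ ^ d :=
  Sp_up (c := 0) hT (fun _ => by simp) ha

end Pool.Agent.CF
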