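import Pool.Agent.Lib.MP_bf776f_nt.CF.Nrm

/-! The action of a semilinear functional on the exponential series (simple fractions). -/

namespace Pool.Agent.CF

open Finset Filter Topology

set_option linter.unusedSectionVars false

variable {M : Type} [NormedField M] {q : ℕ} {T : M}

/-- `ℓ = ∏_{0 < v < E} (T - T^(q^v))`. -/
def ell (q : ℕ) (T : M) (E : ℕ) : M := ∏ v ∈ (range E).erase 0, (T - T ^ q ^ v)

/-- `Λ (k^Q z) = k Λ z`. -/
def Semi (Q : ℕ) (Λ : M →+ M) : Prop := ∀ k z : M, Λ (k ^ Q * z) = k * Λ z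

/-- The terms of `e(ϱ) - ϱ` with `w = ϱ^q`. -/
def sig (q : ℕ) (T w : M) (j : ℕ) : M := w ^ q ^ j / D q T (j + 1)

/-- `Λ((γ^Q - T)^(Q-1))`. -/
def pv (Q : ℕ) (T : M) (Λ : M →+ M) (γ : M) : M :=
  Λ (∑ r ∈ range Q, T ^ r * (γ ^ Q) ^ (Q - 1 - r))

theorem pv_eq {Q : ℕ} {Λ : M →+ M} (hS : Semi Q Λ) (γ : M) :
    pv Q T Λ γ = ∑ r ∈ range Q, γ ^ (Q - 1 - r) * Λ (T ^ r) := by
  rw [pv, map_sum]
  refine Finset.sum_congr rfl fun r _ => ?_
  rw [← hS, ← pow_mul, ← pow_mul, mul_comm (T ^ r), mul_comm Q]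

theorem hs_congr {f g : ℕ → M} {a b : M} (h : HasSum f a) (h1 : ∀ j, g j = f j) (h2 : b = a) :
    HasSum g b := by
  rw [funext h1, h2]; exact h

theorem weight_pow (h : Fr q M) {E u : ℕ} (hu : u < E) : ∃ z : M,
    Lagrange.nodalWeight (range E) (fun v => T ^ q ^ v) u = (D q T u)⁻¹ * z ^ q ^ u := by
  obtain ⟨φ, hφ⟩ := h.hom u
  have hx : ∀ v, u ≤ v → T ^ q ^ v ∈ φ.fieldRange := fun v hv =>
    ⟨T ^ q ^ (v - u), by rw [hφ, ← pow_mul, ← pow_add, Nat.sub_add_cancel hv]⟩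
  have h1 : ((range E).erase u).filter (· < u) = range u := by
    ext v
    simp only [mem_filter, mem_erase, mem_range]
    omega
  have h2 : (∏ v ∈ ((range E).erase u).filter (fun v => ¬ v < u),
      (T ^ q ^ u - T ^ q ^ v)⁻¹) ∈ φ.fieldRange :=
    prod_mem fun v hv => inv_mem (sub_mem (hx u le_rfl) (hx v (not_lt.1 (mem_filter.1 hv).2)))
  obtain ⟨z, hz⟩ := h2
  refine ⟨z, ?_⟩
  rw [← hφ z, hz, Lagrange.nodalWeight, ← Finset.prod_filter_mul_prod_filter_not _ (· < u), h1, D,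
    ← Finset.prod_inv_distrib]

variable [IsUltrametricDist M]

theorem pow_inj (h : Fr q M) (hT : 1 < ‖T‖) : Function.Injective fun v : ℕ => T ^ q ^ v := by
  intro a b hab
  rcases lt_trichotomy a b with h1 | h1 | h1
  · exact absurd (sub_eq_zero.2 hab.symm) (sub_pow_ne hT (h.lt h1))
  · exact h1
  · exact absurd (sub_eq_zero.2 hab) (sub_pow_ne hT (h.lt h1))

theorem sig_add (h : Fr q M) (hT : 1 < ‖T‖) (w : M) {E : ℕ} (hE : 1 ≤ E) (j : ℕ) :
    sig q T w (j + E) = ∑ u ∈ range E, Lagrange.nodalWeight (range E) (fun v => T ^ q ^ v) u *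
      (sig q T w j ^ q ^ E * (T ^ q ^ (j + 1 + E) - T ^ q ^ u)⁻¹) := by
  set x : ℕ → M := fun v => T ^ q ^ v with hx
  set y : M := T ^ q ^ (j + 1 + E) with hy
  have hinj : Set.InjOn x (range E : Finset ℕ) := (pow_inj h hT).injOn
  have hyx : ∀ u ∈ range E, y - x u ≠ 0 := fun u hu =>
    sub_pow_ne hT (h.lt (by have := mem_range.1 hu; omega))
  have h0 : (0 : ℕ) ∈ range E := mem_range.2 (by omega)
  have h1 : (∏ u ∈ range E, (y - x u)) *
      ∑ u ∈ range E, Lagrange.nodalWeight (range E) x u * (y - x u)⁻¹ = 1 := by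
    have h := congrArg (Polynomial.eval y) (Lagrange.sum_basis hinj ⟨0, h0⟩)
    rw [Polynomial.eval_finsetSum, Polynomial.eval_one] at h
    rw [← h, Finset.mul_sum, ← Lagrange.eval_nodal]
    exact Finset.sum_congr rfl fun u hu =>
      (Lagrange.eval_basis_not_at_node hu (sub_ne_zero.1 (hyx u hu))).symm
  have h2 : sig q T w (j + E) = sig q T w j ^ q ^ E *
      ∑ u ∈ range E, Lagrange.nodalWeight (range E) x u * (y - x u)⁻¹ := by
    rw [eq_inv_of_mul_eq_one_right h1, sig, sig, show j + E + 1 = j + 1 + E by ring, D_add h,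
      div_pow, ← pow_mul, ← pow_add, div_eq_mul_inv, div_eq_mul_inv, mul_inv]
    ring
  rw [h2, Finset.mul_sum]
  exact Finset.sum_congr rfl fun u _ => by ring

theorem ell_weight (h : Fr q M) (hT : 1 < ‖T‖) (E : ℕ) :
    ell q T E * Lagrange.nodalWeight (range E) (fun v => T ^ q ^ v) 0 = 1 := by
  rw [ell, Lagrange.nodalWeight, ← Finset.prod_mul_distrib]
  refine Finset.prod_eq_one fun v hv => ?_
  have hv0 : 0 < v := Nat.pos_of_ne_zero (mem_erase.1 hv).1
  have h4 := sub_pow_ne hT (h.lt hv0)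
  simp only [pow_zero, pow_one] at h4 ⊢
  exact mul_inv_cancel₀ fun h => h4 (by linear_combination -h)

theorem norm_Y (h : Fr q M) (hT : 1 < ‖T‖) {i : ℕ} (hi : 1 ≤ i) :
    ‖T ^ q ^ i - T‖ = ‖T‖ ^ q ^ i := by
  have := norm_sub_pow hT (h.lt (u := 0) (i := i) hi)
  simpa using this

variable [CompleteSpace M]

theorem ident (h : Fr q M) (hT : 1 < ‖T‖) {w : M} (hw : HasSum (sig q T w) 0) {E : ℕ}
    (hE : 1 ≤ E) {Λ : M →+ M} (hS : Semi (q ^ E) Λ) (h0 : Λ (ell q T E / D q T 1 * w) = 0)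
    (h1 : ∀ z, Λ (ell q T E / D q T 1 * z ^ q) = 0)
    (h2 : ∀ j, 1 ≤ j → j < E → ∀ z, Λ (ell q T E / D q T (j + 1) * z ^ q ^ j) = 0) :
    HasSum (fun j => sig q T w j * pv (q ^ E) T Λ (T ^ q ^ (j + 1)) /
      (T ^ q ^ (j + 1 + E) - T)) 0 := by
  have hT0 : 0 < ‖T‖ := by linarith
  set W := Lagrange.nodalWeight (range E) (fun v => T ^ q ^ v) with hW
  set a : ℕ → ℕ → M := fun u j => sig q T w j ^ q ^ E * (T ^ q ^ (j + 1 + E) - T ^ q ^ u)⁻¹
    with ha
  -- roots of the parts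
  have hroot : ∀ u, u < E → ∃ s, HasSum (a u) (s ^ q ^ u) := by
    intro u hu
    have e1 : Summable fun j => sig q T w j ^ q ^ (E - u) * (T ^ q ^ (j + 1 + (E - u)) - T)⁻¹ := by
      refine summ_of_le (h.hasSum (E - u) hw).summable fun j => ?_
      rw [norm_mul, norm_inv, norm_Y h hT (by omega)]
      exact mul_le_of_le_one_right (norm_nonneg _)
        (inv_le_one_of_one_le₀ (one_le_pow₀ hT.le))
    refine ⟨_, hs_congr (h.hasSum u e1.hasSum) (fun j => ?_) rfl⟩
    rw [mul_pow, inv_pow, h.sub, ← pow_mul, ← pow_mul, ← pow_add, ← pow_add,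
      Nat.sub_add_cancel hu.le, add_assoc (j + 1), Nat.sub_add_cancel hu.le]
  choose! s hs using hroot
  have htail : HasSum (fun j => sig q T w (j + E)) (-∑ j ∈ range E, sig q T w j) := by
    rw [hasSum_nat_add_iff E]; simpa using hw
  have hsum : HasSum (fun j => sig q T w (j + E)) (∑ u ∈ range E, W u * s u ^ q ^ u) := by
    have := hasSum_sum (s := range E) fun u hu => (hs u (mem_range.1 hu)).mul_left (W u)
    exact hs_congr this (fun j => sig_add h hT w hE j) rfl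
  have hkey := congrArg (fun z => Λ (ell q T E * z)) (hsum.unique htail)
  simp only [mul_neg, map_neg, Finset.mul_sum, map_sum] at hkey
  rw [Finset.sum_eq_zero (s := range E) (f := fun j => Λ (ell q T E * sig q T w j)), neg_zero,
    Finset.sum_eq_single 0, ← mul_assoc, ell_weight h hT, one_mul] at hkey
  · -- the part `u = 0`
    have hY : ∀ j, T ^ q ^ (j + 1 + E) = (T ^ q ^ (j + 1)) ^ q ^ E := fun j => by
      rw [← pow_mul, ← pow_add]
    have hb : ∀ r, Summable fun j => sig q T w j * (T ^ q ^ (j + 1)) ^ (q ^ E - 1 - r) /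
        (T ^ q ^ (j + 1 + E) - T) := by
      intro r
      refine summ_of_le hw.summable fun j => ?_
      rw [norm_div, norm_mul, norm_Y h hT (by omega), div_le_iff₀ (by positivity), norm_pow,
        norm_pow, ← pow_mul, pow_add q (j + 1)]
      gcongr
      · exact hT.le
      · omega
    have e1 : s 0 ^ q ^ 0 = ∑ r ∈ range (q ^ E), T ^ r * (∑' j, sig q T w j *
        (T ^ q ^ (j + 1)) ^ (q ^ E - 1 - r) / (T ^ q ^ (j + 1 + E) - T)) ^ q ^ E := by
      refine (hs 0 hE).unique ?_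
      have := hasSum_sum (s := range (q ^ E)) fun r _ =>
        (h.hasSum E (hb r).hasSum).mul_left (T ^ r)
      refine hs_congr this (fun j => ?_) rfl
      have hne : T ^ q ^ (j + 1 + E) - T ≠ 0 := by
        rw [← norm_ne_zero_iff, norm_Y h hT (by omega)]; positivity
      have e2 := geom_sum₂_mul T (T ^ q ^ (j + 1 + E)) (q ^ E)
      have e3 := h.sub E (T ^ q ^ (j + 1 + E)) T
      have e4 : ∀ r, T ^ r * (sig q T w j * (T ^ q ^ (j + 1)) ^ (q ^ E - 1 - r) /
          (T ^ q ^ (j + 1 + E) - T)) ^ q ^ E = sig q T w j ^ q ^ E *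
            (T ^ r * (T ^ q ^ (j + 1 + E)) ^ (q ^ E - 1 - r)) /
              (T ^ q ^ (j + 1 + E) - T) ^ q ^ E := by
        intro r
        rw [div_pow, mul_pow, ← pow_mul (T ^ q ^ (j + 1)), mul_comm (q ^ E - 1 - r), pow_mul, ← hY]
        ring
      simp only [ha, pow_zero, pow_one]
      rw [Finset.sum_congr rfl fun r _ => e4 r, ← Finset.sum_div, ← Finset.mul_sum, mul_div_assoc]
      congr 1
      rw [eq_div_iff (pow_ne_zero _ hne), inv_mul_eq_iff_eq_mul₀ hne, e3]
      linear_combination e2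
    have := hasSum_sum (s := range (q ^ E)) fun r _ => (hb r).hasSum.mul_right (Λ (T ^ r))
    refine hs_congr this (fun j => ?_) ?_
    · rw [pv_eq hS, Finset.mul_sum, Finset.sum_div]
      exact Finset.sum_congr rfl fun r _ => by ring
    · rw [← hkey, e1, map_sum]
      exact Finset.sum_congr rfl fun r _ => by rw [mul_comm, hS]
  · intro u hu hu0
    obtain ⟨z, hz⟩ := weight_pow (T := T) h (mem_range.1 hu)
    obtain ⟨j, rfl⟩ : ∃ j, u = j + 1 := ⟨u - 1, by omega⟩
    have e1 : ell q T E * (W (j + 1) * s (j + 1) ^ q ^ (j + 1)) =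
        ell q T E / D q T (j + 1) * ((z * s (j + 1)) ^ q) ^ q ^ j := by
      rw [hW, hz, ← pow_mul, ← pow_succ', mul_pow]; ring
    rw [e1]
    rcases Nat.eq_zero_or_pos j with rfl | hj
    · simpa using h1 (z * s 1)
    · exact h2 j hj (by have := mem_range.1 hu; omega) _
  · intro h'
    exact absurd (mem_range.2 hE) h'
  · intro j hj
    rcases Nat.eq_zero_or_pos j with rfl | hj0
    · rw [← h0, sig]; congr 1; simp only [pow_zero, pow_one, zero_add]; ring
    · rw [← h2 j hj0 (mem_range.1 hj) w, sig]; congr 1; ring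

end Pool.Agent.CF
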