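import Pool.Agent.Lib.MP_bf776f_nt.CF.Ht

/-! Liouville inequality and the height data of a finite separable extension of `F(T)`. -/

namespace Pool.Agent.CF

open Finset

set_option linter.unusedSectionVars false

variable {F M : Type} [Field F] [NormedField M] [Algebra F M] {T : M} {ι κ : Type}

/-- Height data: a family whose products are integral combinations. -/
structure Ht (F : Type) [Field F] [Algebra F M] (T : M) (e : ι → M) (c : ℕ) : Prop where
  ne : Nonempty ι
  li : ∀ H, LinearIndependent F fun p : Fin (H + 1) × ι => T ^ (p.1 : ℕ) * e p.2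
  mul : ∀ s t, e s * e t ∈ Sp F T e c
  up : ∀ t, ‖e t‖ ≤ ‖T‖ ^ c

theorem Ht.rank [Fintype ι] {e : ι → M} {c : ℕ} (h : Ht F T e c) (H : ℕ) :
    Module.finrank F (Sp F T e H) = (H + 1) * Fintype.card ι := by
  have := finrank_span_eq_card (h.li H)
  rwa [Fintype.card_prod, Fintype.card_fin] at this

variable {K : Type} [Field K] [Algebra K M]

theorem den (hK : ∀ x : K, ∃ c, ∃ b ∈ Ad F T c, b ≠ 0 ∧ b * algebraMap K M x ∈ Ad F T c)
    {f : ι → M} {x : M} (hx : x ∈ Submodule.span K (Set.range f)) :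
    ∃ c, ∃ b ∈ Ad F T c, b ≠ 0 ∧ b * x ∈ Sp F T f c := by
  induction hx using Submodule.span_induction with
  | mem x hx =>
    obtain ⟨t, rfl⟩ := hx
    exact ⟨0, 1, Ad_one, one_ne_zero, by rw [one_mul]; exact Sp_self t⟩
  | zero => exact ⟨0, 1, Ad_one, one_ne_zero, by simp⟩
  | add x y _ _ hx hy =>
    obtain ⟨c, b, hb, hb0, h⟩ := hx
    obtain ⟨c', b', hb', hb0', h'⟩ := hy
    refine ⟨c + c', b * b', Ad_mul hb hb', mul_ne_zero hb0 hb0', ?_⟩
    rw [show b * b' * (x + y) = b' * (b * x) + b * (b' * y) by ring]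
    exact add_mem (Sp_mono (by omega) (Ad_smul hb' h)) (Ad_smul hb h')
  | smul a x _ hx =>
    obtain ⟨c, b, hb, hb0, h⟩ := hK a
    obtain ⟨c', b', hb', hb0', h'⟩ := hx
    refine ⟨c + c', b * b', Ad_mul hb hb', mul_ne_zero hb0 hb0', ?_⟩
    rw [Algebra.smul_def, show b * b' * (algebraMap K M a * x) =
      b * algebraMap K M a * (b' * x) by ring]
    exact Ad_smul h h'

theorem den_fin [Fintype κ]
    (hK : ∀ x : K, ∃ c, ∃ b ∈ Ad F T c, b ≠ 0 ∧ b * algebraMap K M x ∈ Ad F T c)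
    {f : ι → M} {x : κ → M} (hx : ∀ i, x i ∈ Submodule.span K (Set.range f)) :
    ∃ c, ∃ b ∈ Ad F T c, b ≠ 0 ∧ ∀ i, b * x i ∈ Sp F T f c := by
  classical
  have key : ∀ s : Finset κ, ∃ c, ∃ b ∈ Ad F T c, b ≠ 0 ∧ ∀ i ∈ s, b * x i ∈ Sp F T f c := by
    intro s
    induction s using Finset.induction_on with
    | empty => exact ⟨0, 1, Ad_one, one_ne_zero, by simp⟩
    | insert a s _ ih =>
      obtain ⟨c, b, hb, hb0, h⟩ := ih
      obtain ⟨c', b', hb', hb0', h'⟩ := den hK (hx a)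
      refine ⟨c + c', b * b', Ad_mul hb hb', mul_ne_zero hb0 hb0', fun i hi => ?_⟩
      rcases mem_insert.1 hi with rfl | hi
      · rw [mul_assoc]; exact Ad_smul hb h'
      · rw [mul_comm b, mul_assoc]; exact Sp_mono (by omega) (Ad_smul hb' (h i hi))
  obtain ⟨c, b, h1, h2, h3⟩ := key univ
  exact ⟨c, b, h1, h2, fun i => h3 i (mem_univ i)⟩

variable [Fintype F] [IsUltrametricDist M]

theorem poly_low {x : M} (hx : ‖x‖ ≤ 1) (hx0 : x ≠ 0) {B : ℝ} (hB : 0 ≤ B) (N : ℕ) :
    ∀ a : ℕ → M, (∀ j, ‖a j‖ ≤ B ∧ (a j ≠ 0 → 1 ≤ ‖a j‖)) →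
      ∑ j ∈ range N, a j * x ^ j = 0 → (∃ j < N, a j ≠ 0) → 1 ≤ ‖x‖ * B := by
  induction N with
  | zero => intro a _ _ h; simp at h
  | succ N ih =>
    intro a ha hs hex
    have h1 : ∑ j ∈ range (N + 1), a j * x ^ j =
        x * ∑ j ∈ range N, a (j + 1) * x ^ j + a 0 := by
      rw [Finset.sum_range_succ', Finset.mul_sum]
      congr 1
      · exact Finset.sum_congr rfl fun j _ => by ring
      · simp
    rw [h1] at hs
    by_cases h0 : a 0 = 0
    · rw [h0, add_zero, mul_eq_zero] at hs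
      refine ih (fun j => a (j + 1)) (fun j => ha _) (hs.resolve_left hx0) ?_
      obtain ⟨j, hj, hj0⟩ := hex
      rcases j with _ | j
      · exact absurd h0 hj0
      · exact ⟨j, by omega, hj0⟩
    · refine ((ha 0).2 h0).trans ?_
      rw [eq_neg_of_add_eq_zero_right hs, norm_neg, norm_mul]
      gcongr
      refine IsUltrametricDist.norm_sum_le_of_forall_le_of_nonneg hB fun j _ => ?_
      rw [norm_mul, norm_pow]
      exact (mul_le_of_le_one_right (norm_nonneg _) (pow_le_one₀ (norm_nonneg _) hx)).trans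
        (ha _).1

theorem liou [Fintype ι] (hT : 1 < ‖T‖) {e : ι → M} {c : ℕ} (h : Ht F T e c) :
    ∃ C : ℕ, ∀ H x, x ∈ Sp F T e H → x ≠ 0 → 1 ≤ ‖x‖ * ‖T‖ ^ (C * (H + 1)) := by
  set n := Fintype.card ι with hn
  refine ⟨n * n * (c + 1), fun H x hx hx0 => ?_⟩
  rcases le_total 1 ‖x‖ with h1 | h1
  · exact one_le_mul_of_one_le_of_one_le h1 (one_le_pow₀ hT.le)
  obtain ⟨t⟩ := h.ne
  have he : e t ≠ 0 := by simpa using (h.li 0).ne_zero (0, t)
  have hp : ∀ j, x ^ j * e t ∈ Sp F T e (j * (H + c)) := by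
    intro j
    induction j with
    | zero => simpa using Sp_self t
    | succ j ih =>
      rw [pow_succ', mul_assoc]
      exact Sp_mono (le_of_eq (by ring)) (Sp_mul h.mul hx ih)
  set d := n * n * (H + c) with hd
  let v : Fin (n + 1) × Fin (d + 1) → Sp F T e (n * (H + c) + d) := fun p =>
    ⟨T ^ (p.2 : ℕ) * (x ^ (p.1 : ℕ) * e t), Sp_mono (add_le_add
      (Nat.mul_le_mul_right _ (Nat.lt_succ_iff.1 p.1.2)) (Nat.lt_succ_iff.1 p.2.2))
      (Sp_tmul _ (hp _))⟩
  have hv : ¬ LinearIndependent F v := fun hv => by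
    have h2 := hv.fintype_card_le_finrank
    rw [h.rank, Fintype.card_prod, Fintype.card_fin, Fintype.card_fin, ← hn] at h2
    nlinarith
  obtain ⟨g, hg, ⟨j, i⟩, hji⟩ := Fintype.not_linearIndependent_iff.1 hv
  let a : ℕ → M := fun j => if hj : j < n + 1 then ∑ i, g (⟨j, hj⟩, i) • T ^ (i : ℕ) else 0
  have ha : ∀ j, a j ∈ Ad F T d := fun j => by
    simp only [a]
    split_ifs
    · exact sum_mem fun i _ => Submodule.smul_mem _ _ (Ad_T (Nat.lt_succ_iff.1 i.2))
    · exact zero_mem _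
  have h2 := poly_low h1 hx0 (B := ‖T‖ ^ d) (by positivity) (n + 1) a
    (fun j => ⟨Ad_up hT (ha j), Ad_low hT (ha j)⟩) ?_ ⟨j, j.2, fun h0 => hji ?_⟩
  · refine h2.trans ?_
    gcongr
    · exact hT.le
    · rw [hd, mul_assoc (n * n)]
      exact Nat.mul_le_mul_left _ (by nlinarith)
  · have h3 := congrArg Subtype.val hg
    simp only [v, AddSubmonoidClass.coe_finsetSum, Submodule.coe_smul, Submodule.coe_zero,
      Fintype.sum_prod_type] at h3
    refine mul_right_cancel₀ he ?_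
    rw [zero_mul, ← h3, Finset.sum_mul, ← Fin.sum_univ_eq_sum_range (fun j => a j * x ^ j * e t)]
    refine Finset.sum_congr rfl fun j _ => ?_
    simp only [a, dif_pos j.2, Finset.sum_mul]
    exact Finset.sum_congr rfl fun i _ => by rw [smul_mul_assoc, smul_mul_assoc, mul_assoc]
  · simp only [a, dif_pos j.2] at h0
    exact Fintype.linearIndependent_iff.1 (li_T hT (d + 1)) (fun i => g (j, i)) h0 i

theorem ldata [Fintype κ] [Algebra F K] [IsScalarTower F K M] (hT : 1 < ‖T‖)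
    (hT' : ∃ T' : K, algebraMap K M T' = T)
    (hK : ∀ x : K, ∃ c, ∃ b ∈ Ad F T c, b ≠ 0 ∧ b * algebraMap K M x ∈ Ad F T c)
    (L : IntermediateField K M) [FiniteDimensional K L] [Algebra.IsSeparable K L]
    (u : κ → M) (hu : ∀ k, u k ∈ L) :
    ∃ (n : ℕ) (e : Fin n → M) (c : ℕ) (b : M), Ht F T e c ∧ b ≠ 0 ∧ b ∈ L ∧
      (∀ H x, x ∈ Sp F T e H → x ∈ L) ∧ ∀ E δ P, P ∈ Ad F T (δ * Fintype.card F ^ E) → ∀ k,
        b ^ Fintype.card F ^ E * (u k * P) ∈ Dec T E (Sp F T e (δ + c)) := by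
  obtain ⟨T', rfl⟩ := hT'
  let B := Module.finBasis K L
  have hspan : ∀ {n : ℕ} (f : Fin n → L), Submodule.span K (Set.range f) = ⊤ → ∀ x ∈ L,
      x ∈ Submodule.span K (Set.range fun t => (f t : M)) := by
    intro n f hf x hx
    have h1 : (⟨x, hx⟩ : L) ∈ Submodule.span K (Set.range f) := by rw [hf]; trivial
    have h2 := Submodule.mem_map_of_mem (f := L.val.toLinearMap) h1
    rwa [Submodule.map_span, ← Set.range_comp] at h2
  obtain ⟨c₁, b₁, hb₁, hb₁0, h₁⟩ := den_fin hK (f := fun t => (B t : M))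
    (x := fun p : Fin _ × Fin _ => (B p.1 : M) * B p.2)
    fun p => hspan B B.span_eq _ (mul_mem (B p.1).2 (B p.2).2)
  have hAK : ∀ {d : ℕ} {a : M}, a ∈ Ad F (algebraMap K M T') d → ∃ a' : K, algebraMap K M a' = a := by
    intro d a ha
    have := Sp_map LinearMap.id (LinearMap.range (IsScalarTower.toAlgHom F K M).toLinearMap)
      (fun i _ _ => ⟨T' ^ i, by simp⟩) ha
    exact this
  obtain ⟨β, rfl⟩ := hAK hb₁
  have hβ : β ≠ 0 := fun h => hb₁0 (by rw [h, map_zero])
  let B' := B.unitsSMul fun _ => Units.mk0 β hβ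
  have hB' : ∀ t, (B' t : M) = algebraMap K M β * B t := fun t => by
    simp [B', Module.Basis.unitsSMul_apply, Algebra.smul_def]
  obtain ⟨p, hp, s, hpp, hs⟩ := FiniteField.card' F
  have : CharP K p := charP_of_injective_algebraMap (algebraMap F K).injective p
  have : ExpChar K p := ExpChar.prime hpp
  have hq := Field.span_map_pow_expChar_pow_eq_top_of_isSeparable p s B'.span_eq
  rw [← hs] at hq
  obtain ⟨c₂, b₂, hb₂, hb₂0, h₂⟩ := den_fin hK (f := fun t => (B' t : M) ^ Fintype.card F)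
    (x := fun t => (B' t : M)) fun t => hspan _ hq _ (B' t).2
  obtain ⟨c₃, b₃, hb₃, hb₃0, h₃⟩ := den_fin hK (f := fun t => (B' t : M)) (x := u)
    fun k => hspan B' B'.span_eq _ (hu k)
  obtain ⟨c₄, h₄⟩ := exists_pow_ge hT (∑ t, ‖(B' t : M)‖)
  refine ⟨_, fun t => (B' t : M), 4 * (c₂ + c₃) + c₁ + c₄, b₂ * b₃, ⟨?_, fun H => ?_,
    fun s t => ?_, fun t => ?_⟩, mul_ne_zero hb₂0 hb₃0, ?_, fun H x hx => ?_,
    fun E δ P hP k => ?_⟩
  · exact ⟨⟨0, Module.finrank_pos⟩⟩
  · have l1 : LinearIndependent F fun i : Fin (H + 1) => T' ^ (i : ℕ) := by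
      refine LinearIndependent.of_comp (IsScalarTower.toAlgHom F K M).toLinearMap ?_
      convert li_T (F := F) hT (H + 1) using 1
      funext i
      simp
    have l2 : LinearIndependent K fun t => (B' t : M) :=
      B'.linearIndependent.map' L.val.toLinearMap (LinearMap.ker_eq_bot_of_injective
        L.val.injective)
    have l3 := linearIndependent_smul l1 l2
    simpa only [Algebra.smul_def, map_pow] using l3
  · have h5 := Sp_scale (b := algebraMap K M β) (f := fun t => (B' t : M)) (c := 0)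
      (fun t => by rw [← hB']; exact Sp_self (e := fun t => (B' t : M)) t) (h₁ (s, t))
    rw [hB' s, hB' t]
    refine Sp_mono (by omega) (H := c₁ + 0) ?_
    convert h5 using 1
    ring
  · refine le_trans (Finset.single_le_sum (f := fun t => ‖(B' t : M)‖)
      (fun _ _ => norm_nonneg _) (mem_univ t)) (h₄.trans ?_)
    exact pow_le_pow_right₀ hT.le (by omega)
  · obtain ⟨β', h⟩ := hAK (Ad_mul hb₂ hb₃)
    rw [← h]
    exact L.algebraMap_mem _
  · exact Sp_map LinearMap.id (L.toSubalgebra.toSubmodule.restrictScalars F)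
      (fun i _ t => L.mul_mem (pow_mem (L.algebraMap_mem T') i) (B' t).2) hx
  · obtain ⟨y, hy, hy'⟩ := car (c := c₂ + c₃) (Ad_mono (by omega) hb₂) (Ad_mono (by omega) hb₃)
      (fun t => Sp_mono (by omega) (h₂ t)) (Sp_mono (by omega) (h₃ k)) hP
    exact ⟨y, fun r => Sp_mono (by omega) (hy r), hy'⟩

end Pool.Agent.CF
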