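import Pool.Agent.Lib.MP_bf776f_nt.CF.Defs

/-! Norms, Frobenius and summability. -/

namespace Pool.Agent.CF

open Finset Filter Topology

set_option linter.unusedSectionVars false

variable {M : Type} [NormedField M] {q : ℕ} {T : M}

/-- `z ↦ z^q` is additive. -/
def Fr (q : ℕ) (M : Type) [NormedField M] : Prop :=
  2 ≤ q ∧ ∀ a b : M, (a + b) ^ q = a ^ q + b ^ q

theorem fr_card (F : Type) [Field F] [Fintype F] [Algebra F M] : Fr (Fintype.card F) M :=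
  ⟨Fintype.one_lt_card, fun a b => by
    have h := map_add (FiniteField.frobeniusAlgHom F M) a b
    simpa only [FiniteField.coe_frobeniusAlgHom] using h⟩

theorem Fr.pos (h : Fr q M) (E : ℕ) : 0 < q ^ E := pow_pos (by have := h.1; omega) E

theorem Fr.lt (h : Fr q M) {u i : ℕ} (hu : u < i) : q ^ u < q ^ i := Nat.pow_lt_pow_right h.1 hu

theorem Fr.le (h : Fr q M) {u i : ℕ} (hu : u ≤ i) : q ^ u ≤ q ^ i :=
  Nat.pow_le_pow_right (by have := h.1; omega) hu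

theorem Fr.add (h : Fr q M) (E : ℕ) (a b : M) : (a + b) ^ q ^ E = a ^ q ^ E + b ^ q ^ E := by
  induction E with
  | zero => simp
  | succ i ih => rw [pow_succ, pow_mul, ih, h.2, ← pow_mul, ← pow_mul]

theorem Fr.hom (h : Fr q M) (E : ℕ) : ∃ φ : M →+* M, ∀ z, φ z = z ^ q ^ E :=
  ⟨{ toFun := fun z => z ^ q ^ E
     map_one' := one_pow _
     map_mul' := fun a b => mul_pow a b _
     map_zero' := zero_pow (h.pos E).ne'
     map_add' := h.add E }, fun _ => rfl⟩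

theorem Fr.sub (h : Fr q M) (E : ℕ) (a b : M) : (a - b) ^ q ^ E = a ^ q ^ E - b ^ q ^ E := by
  obtain ⟨φ, hφ⟩ := h.hom E
  rw [← hφ, ← hφ, ← hφ, map_sub]

theorem Fr.neg (h : Fr q M) (E : ℕ) (a : M) : (-a) ^ q ^ E = -a ^ q ^ E := by
  obtain ⟨φ, hφ⟩ := h.hom E
  rw [← hφ, ← hφ, map_neg]

theorem Fr.sum (h : Fr q M) {ι : Type} (E : ℕ) (s : Finset ι) (f : ι → M) :
    (∑ i ∈ s, f i) ^ q ^ E = ∑ i ∈ s, f i ^ q ^ E := by
  obtain ⟨φ, hφ⟩ := h.hom E
  rw [← hφ, map_sum]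
  exact Finset.sum_congr rfl fun i _ => hφ _

theorem Fr.hasSum (h : Fr q M) (E : ℕ) {a : ℕ → M} {s : M} (ha : HasSum a s) :
    HasSum (fun j => a j ^ q ^ E) (s ^ q ^ E) := by
  obtain ⟨φ, hφ⟩ := h.hom E
  have hc : Continuous φ := by
    have : (φ : M → M) = fun z => z ^ q ^ E := funext hφ
    rw [this]; fun_prop
  have h1 := ha.map φ hc
  rw [hφ] at h1
  have h2 : (φ ∘ a) = fun j => a j ^ q ^ E := funext fun j => hφ _
  rwa [h2] at h1

theorem D_add (h : Fr q M) (j E : ℕ) : D q T (j + E) = D q T j ^ q ^ E *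
    ∏ u ∈ range E, (T ^ q ^ (j + E) - T ^ q ^ u) := by
  rw [D, D, show range (j + E) = range (E + j) by rw [add_comm], Finset.prod_range_add, mul_comm,
    ← Finset.prod_pow]
  congr 1
  refine Finset.prod_congr rfl fun u _ => ?_
  rw [h.sub, ← pow_mul, ← pow_mul, ← pow_add, ← pow_add, add_comm u E]

variable [IsUltrametricDist M]

theorem norm_add_left {a b : M} (h : ‖b‖ < ‖a‖) : ‖a + b‖ = ‖a‖ := by
  rw [IsUltrametricDist.norm_add_eq_max_of_norm_ne_norm h.ne', max_eq_left h.le]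

theorem norm_sub_left {a b : M} (h : ‖b‖ < ‖a‖) : ‖a - b‖ = ‖a‖ := by
  rw [sub_eq_add_neg, norm_add_left (by rwa [norm_neg])]

theorem norm_add_le' {a b : M} {C : ℝ} (ha : ‖a‖ ≤ C) (hb : ‖b‖ ≤ C) : ‖a + b‖ ≤ C :=
  (IsUltrametricDist.norm_add_le_max a b).trans (max_le ha hb)

theorem norm_sub_le' {a b : M} {C : ℝ} (ha : ‖a‖ ≤ C) (hb : ‖b‖ ≤ C) : ‖a - b‖ ≤ C := by
  rw [sub_eq_add_neg]; exact norm_add_le' ha (by rwa [norm_neg])

theorem norm_sub_pow (hT : 1 < ‖T‖) {a b : ℕ} (h : b < a) : ‖T ^ a - T ^ b‖ = ‖T‖ ^ a := by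
  rw [norm_sub_left, norm_pow]
  rw [norm_pow, norm_pow]
  exact pow_lt_pow_right₀ hT h

theorem sub_pow_ne (hT : 1 < ‖T‖) {a b : ℕ} (h : b < a) : T ^ a - T ^ b ≠ 0 := by
  rw [← norm_ne_zero_iff, norm_sub_pow hT h]; positivity

theorem norm_D (h : Fr q M) (hT : 1 < ‖T‖) (i : ℕ) : ‖D q T i‖ = ‖T‖ ^ (i * q ^ i) := by
  rw [D, norm_prod, Finset.prod_congr rfl fun u hu => norm_sub_pow hT (h.lt (mem_range.1 hu)),
    Finset.prod_const, card_range, ← pow_mul, mul_comm]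

theorem D_ne (h : Fr q M) (hT : 1 < ‖T‖) (i : ℕ) : D q T i ≠ 0 := by
  rw [← norm_ne_zero_iff, norm_D h hT]; positivity

theorem exists_pow_ge (hT : 1 < ‖T‖) (x : ℝ) : ∃ d : ℕ, x ≤ ‖T‖ ^ d :=
  (pow_unbounded_of_one_lt x hT).imp fun _ h => h.le

variable [CompleteSpace M]

theorem summ_of_le {a b : ℕ → M} (hb : Summable b) (h : ∀ j, ‖a j‖ ≤ ‖b j‖) : Summable a := by
  refine NonarchimedeanAddGroup.summable_of_tendsto_cofinite_zero ?_
  rw [tendsto_zero_iff_norm_tendsto_zero]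
  exact squeeze_zero (fun _ => norm_nonneg _) h
    (tendsto_zero_iff_norm_tendsto_zero.1 hb.tendsto_cofinite_zero)

theorem summable_ex (h : Fr q M) (hT : 1 < ‖T‖) (z : M) :
    Summable fun i : ℕ => z ^ q ^ i / D q T i := by
  obtain ⟨d, hd⟩ := exists_pow_ge hT ‖z‖
  have h0 : 0 < ‖T‖ := by linarith
  refine Summable.of_norm_bounded_eventually_nat
    (summable_geometric_of_lt_one (inv_nonneg.2 h0.le) (inv_lt_one_of_one_lt₀ hT)) ?_
  filter_upwards [eventually_ge_atTop (d + 1)] with i hi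
  rw [norm_div, norm_pow, norm_D h hT, inv_pow, div_le_iff₀ (by positivity),
    ← div_eq_inv_mul, le_div_iff₀ (by positivity)]
  calc ‖z‖ ^ q ^ i * ‖T‖ ^ i ≤ (‖T‖ ^ d) ^ q ^ i * ‖T‖ ^ q ^ i := by
        gcongr
        · exact hT.le
        · exact (Nat.lt_pow_self h.1).le
    _ = ‖T‖ ^ ((d + 1) * q ^ i) := by rw [← pow_mul, ← pow_add]; congr 1; ring
    _ ≤ _ := pow_le_pow_right₀ hT.le (Nat.mul_le_mul_right _ hi)

end Pool.Agent.CF
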