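import Pool.Agent.Lib.MP_bf776f_nt.CF.Red

/-! Periods are separable over `K_∞`; periods and fixed points exist. -/

namespace Pool.Agent.CF

open Finset Filter Topology Polynomial

set_option linter.unusedSectionVars false

variable {M : Type} [NormedField M] [IsUltrametricDist M] [CompleteSpace M] {q : ℕ} {T : M}

theorem solve {t r : ℝ} (ht : 1 < t) (H : M →+ M) (hH : ∀ δ, ‖δ‖ ≤ r → ‖H δ - δ‖ ≤ ‖δ‖ / t)
    {L : AddSubgroup M} (hL : IsClosed (L : Set M)) (hHL : ∀ z ∈ L, H z ∈ L) {x : M}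
    (hx : x ∈ L) (hr : ‖x‖ ≤ r) : ∃ ε ∈ L, ‖ε‖ ≤ r ∧ H ε = x := by
  have ht0 : 0 < t := by linarith
  have hr0 : 0 ≤ r := (norm_nonneg _).trans hr
  let ρ : ℕ → M := fun n => (fun z => z - H z)^[n] x
  have hρ : ∀ n, ρ (n + 1) = ρ n - H (ρ n) := fun n => Function.iterate_succ_apply' _ _ _
  have hle : ∀ n m, r * t⁻¹ ^ (n + m) ≤ r * t⁻¹ ^ m := fun n m =>
    mul_le_mul_of_nonneg_left (pow_le_pow_of_le_one (by positivity)
      (inv_le_one_of_one_le₀ ht.le) (by omega)) hr0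
  have hle' : ∀ n, r * t⁻¹ ^ n ≤ r := fun n => by simpa using hle n 0
  have h1 : ∀ n, ρ n ∈ L ∧ ‖ρ n‖ ≤ r * t⁻¹ ^ n := by
    intro n
    induction n with
    | zero => exact ⟨hx, by simpa [ρ] using hr⟩
    | succ n ih =>
      rw [hρ, norm_sub_rev]
      refine ⟨sub_mem ih.1 (hHL _ ih.1), (hH _ (ih.2.trans (hle' n))).trans ?_⟩
      rw [pow_succ, ← mul_assoc, div_eq_mul_inv]
      gcongr
      exact ih.2
  have hg := summable_geometric_of_lt_one (inv_nonneg.2 ht0.le) (inv_lt_one_of_one_lt₀ ht)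
  have hs : Summable ρ := Summable.of_norm_bounded (hg.mul_left r) fun n => (h1 n).2
  refine ⟨∑' n, ρ n, tsum_mem hL fun n => (h1 n).1,
    IsUltrametricDist.norm_tsum_le_of_forall_le fun n => (h1 n).2.trans (hle' n), ?_⟩
  have h2 : ∀ N, H (∑ n ∈ range N, ρ n) = x - ρ N := by
    intro N
    induction N with
    | zero => simp [ρ]
    | succ N ih => rw [Finset.sum_range_succ, map_add, ih, hρ]; ring
  have h3 : ∀ N, ‖H (∑' n, ρ n) - x‖ ≤ r * t⁻¹ ^ N := by
    intro N
    have h4 : ‖∑' n, ρ (n + N)‖ ≤ r * t⁻¹ ^ N :=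
      IsUltrametricDist.norm_tsum_le_of_forall_le fun n => (h1 _).2.trans (hle n N)
    have h5 := hH _ (h4.trans (hle' N))
    rw [← hs.sum_add_tsum_nat_add N, map_add, h2, show x - ρ N + H (∑' n, ρ (n + N)) - x =
      H (∑' n, ρ (n + N)) - ∑' n, ρ (n + N) + ∑' n, ρ (n + N) - ρ N by ring]
    exact norm_sub_le' (norm_add_le' (h5.trans ((div_le_self (norm_nonneg _) ht.le).trans h4)) h4)
      (h1 N).2
  have h4 := ge_of_tendsto' (hg.mul_left r).tendsto_atTop_zero h3
  exact sub_eq_zero.1 (norm_le_zero_iff.1 h4)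

theorem D_succ (h : Fr q M) (j : ℕ) : D q T (j + 1) = D q T j ^ q * (T ^ q ^ (j + 1) - T) := by
  simpa using D_add (T := T) h j 1

theorem ex_add (h : Fr q M) (hT : 1 < ‖T‖) (x y : M) : ex q T (x + y) = ex q T x + ex q T y := by
  rw [ex, ex, ex, ← (summable_ex h hT x).tsum_add (summable_ex h hT y)]
  exact tsum_congr fun i => by rw [h.add, add_div]

theorem ex_T (h : Fr q M) (hT : 1 < ‖T‖) (z : M) :
    ex q T (T * z) = T * ex q T z + ex q T z ^ q := by
  have h1 := (summable_ex h hT (T * z)).hasSum.sub ((summable_ex h hT z).hasSum.mul_left T)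
  have h2 := h.hasSum 1 (summable_ex h hT z).hasSum
  have h3 := ((hasSum_nat_add_iff' 1).2 h1).unique (hs_congr h2 (fun j => ?_) rfl)
  · simp only [range_one, sum_singleton, pow_zero, pow_one] at h3
    rw [ex, ex]
    linear_combination h3
  · have h4 : T ^ q ^ (j + 1) - T ≠ 0 := by
      rw [← norm_ne_zero_iff, norm_Y h hT (by omega)]; positivity
    have h5 := D_ne h hT j
    rw [D_succ h, pow_one, div_pow, mul_pow, ← pow_mul z, ← pow_succ]
    field_simp

theorem ex_small (h : Fr q M) (hT : 1 < ‖T‖) {δ : M} (hδ : ‖δ‖ ≤ 1) :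
    ‖ex q T δ - δ‖ ≤ ‖δ‖ / ‖T‖ := by
  rw [ex, (summable_ex h hT δ).tsum_eq_zero_add]
  simp only [D, pow_zero, pow_one, range_zero, prod_empty, div_one, add_sub_cancel_left]
  refine IsUltrametricDist.norm_tsum_le_of_forall_le fun i => ?_
  rw [← D, norm_div, norm_D h hT, norm_pow]
  have h1 := h.pos (i + 1)
  gcongr
  · exact pow_le_of_le_one (norm_nonneg _) hδ h1.ne'
  · exact le_self_pow₀ hT.le (Nat.mul_pos (by omega) h1).ne'

theorem exists_zero [IsAlgClosed M] (h : Fr q M) (hT : 1 < ‖T‖) (s : ℕ) :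
    ∃ z : M, z ≠ 0 ∧ HasSum (fun i => z ^ q ^ i / D q T (i + s)) 0 := by
  have hT0 : 0 < ‖T‖ := by linarith
  have hq := h.1
  have hD := D_ne h hT
  have hsum : ∀ z : M, Summable fun i => z ^ q ^ i / D q T (i + s) := by
    intro z
    obtain ⟨y, rfl⟩ := IsAlgClosed.exists_pow_nat_eq z (h.pos s)
    refine ((summable_nat_add_iff s).2 (summable_ex h hT y)).congr fun i => ?_
    rw [← pow_mul, ← pow_add, add_comm s]
  obtain ⟨z, hz⟩ := IsAlgClosed.exists_pow_nat_eq (-(D q T (1 + s) / D q T s))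
    (show 0 < q - 1 by omega)
  have hz0 : z ≠ 0 := by
    rintro rfl
    rw [zero_pow (by omega), eq_comm, neg_eq_zero] at hz
    exact div_ne_zero (hD _) (hD _) hz
  have hR : 0 < ‖z‖ := norm_pos_iff.2 hz0
  set b : ℕ → M := fun i => z ^ q ^ i / D q T (i + s) with hb
  have hb01 : b 1 = -b 0 := by
    have := hD s
    have := hD (1 + s)
    simp only [hb, pow_zero, pow_one, zero_add]
    conv_lhs => rw [← Nat.sub_add_cancel (show 1 ≤ q by omega), pow_succ, hz,
      Nat.sub_add_cancel (show 1 ≤ q by omega)]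
    field_simp
  have hrec : ∀ i, ‖b (i + 1)‖ * ‖T‖ ^ q ^ (i + s + 1) = ‖b i‖ ^ q := by
    intro i
    have h4 : T ^ q ^ (i + s + 1) - T ≠ 0 := by
      rw [← norm_ne_zero_iff, norm_Y h hT (by omega)]; positivity
    rw [← norm_Y h hT (by omega), ← norm_mul, ← norm_pow]
    congr 1
    simp only [hb]
    rw [show i + 1 + s = i + s + 1 by ring, D_succ h, div_pow, ← pow_mul, ← pow_succ]
    field_simp
  have hb2 : ∀ i, ‖b (i + 1)‖ ≤ ‖b 0‖ → ‖b (i + 2)‖ ≤ ‖b 0‖ / ‖T‖ := by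
    intro i hi
    rw [le_div_iff₀ hT0]
    refine le_of_mul_le_mul_right ?_ (pow_pos hT0 (q ^ (0 + s + 1)))
    calc ‖b (i + 2)‖ * ‖T‖ * ‖T‖ ^ q ^ (0 + s + 1)
        = ‖b (i + 2)‖ * ‖T‖ ^ (q ^ (0 + s + 1) + 1) := by ring
      _ ≤ ‖b (i + 2)‖ * ‖T‖ ^ q ^ (i + 1 + s + 1) := by
          gcongr
          · exact hT.le
          · exact h.lt (by omega)
      _ ≤ ‖b 0‖ ^ q := by rw [hrec]; gcongr
      _ = _ := by rw [← hrec 0, zero_add 1, hb01, norm_neg]
  have hb1 : ∀ i, ‖b (i + 1)‖ ≤ ‖b 0‖ := by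
    intro i
    induction i with
    | zero => rw [zero_add, hb01, norm_neg]
    | succ i ih => exact (hb2 i ih).trans (div_le_self (norm_nonneg _) hT.le)
  have hb0 : ‖D q T s‖ * ‖b 0‖ = ‖z‖ := by
    rw [← norm_mul]
    simp only [hb, pow_zero, pow_one, zero_add]
    rw [mul_div_cancel₀ _ (hD s)]
  let H : M →+ M := AddMonoidHom.mk' (fun x => D q T s * ∑' i, x ^ q ^ i / D q T (i + s))
    fun x y => by
      rw [← mul_add, ← (hsum x).tsum_add (hsum y)]
      congr 1
      exact tsum_congr fun i => by rw [h.add, add_div]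
  have hH : ∀ x, H x = D q T s * ∑' i, x ^ q ^ i / D q T (i + s) := fun _ => rfl
  have key := solve (r := ‖z‖ / ‖T‖) hT H (fun δ hδ => ?_) (L := ⊤) isClosed_univ
    (fun _ _ => trivial) (x := -H z) trivial ?_
  · obtain ⟨ε, -, h1, h2⟩ := key
    refine ⟨z + ε, fun h0 => ?_, ?_⟩
    · rw [eq_neg_of_add_eq_zero_right h0, norm_neg] at h1
      exact absurd h1 (not_le.2 (div_lt_self hR hT))
    · have h3 : H (z + ε) = 0 := by rw [map_add, h2, add_neg_cancel]
      rw [hH, mul_eq_zero] at h3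
      exact h3.resolve_left (hD s) ▸ (hsum _).hasSum
  · rw [hH, (hsum δ).tsum_eq_zero_add, pow_zero, pow_one, zero_add, mul_add,
      mul_div_cancel₀ _ (hD s), add_sub_cancel_left, ← tsum_mul_left]
    refine IsUltrametricDist.norm_tsum_le_of_forall_le fun i => ?_
    have e1 : δ ^ q ^ (i + 1) / D q T (i + 1 + s) = b (i + 1) * (δ / z) ^ q ^ (i + 1) := by
      simp only [hb]
      rw [div_pow]
      field_simp
    have e2 : ‖δ / z‖ ≤ ‖T‖⁻¹ := by
      rw [norm_div, div_le_iff₀ hR, inv_mul_eq_div]; exact hδ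
    have e3 : ‖δ / z‖ ^ q ^ (i + 1) ≤ ‖δ / z‖ ^ 2 :=
      pow_le_pow_of_le_one (norm_nonneg _) (e2.trans (inv_le_one_of_one_le₀ hT.le))
        (hq.trans (Nat.le_self_pow (by omega) q))
    rw [e1, norm_mul, norm_mul, norm_pow]
    calc _ ≤ ‖D q T s‖ * (‖b 0‖ * (‖δ / z‖ * ‖T‖⁻¹)) := by
          gcongr
          · exact hb1 i
          · refine e3.trans ?_
            rw [sq]
            gcongr
      _ = _ := by rw [← mul_assoc, hb0, norm_div]; field_simp
  · rw [norm_neg, hH, ← (hsum z).sum_add_tsum_nat_add 2, Finset.sum_range_succ,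
      Finset.sum_range_one, show z ^ q ^ 1 / D q T (1 + s) = -(z ^ q ^ 0 / D q T (0 + s)) from hb01,
      add_neg_cancel, zero_add, norm_mul, ← hb0, mul_div_assoc]
    gcongr
    exact IsUltrametricDist.norm_tsum_le_of_forall_le fun i => hb2 i (hb1 i)

theorem exists_fix [IsAlgClosed M] (h : Fr q M) (hT : 1 < ‖T‖) :
    ∃ ϱ : M, ϱ ≠ 0 ∧ ex q T ϱ = ϱ := by
  obtain ⟨w, hw0, hw⟩ := exists_zero h hT 1
  obtain ⟨ϱ, rfl⟩ := IsAlgClosed.exists_pow_nat_eq w (show 0 < q by have := h.1; omega)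
  refine ⟨ϱ, fun h0 => hw0 (by rw [h0, zero_pow (by have := h.1; omega)]), ?_⟩
  rw [ex, (summable_ex h hT ϱ).tsum_eq_zero_add, (hs_congr hw (fun j => by
    rw [← pow_mul, ← pow_succ']) rfl).tsum_eq]
  simp [D]

theorem exists_per [IsAlgClosed M] (h : Fr q M) (hT : 1 < ‖T‖) :
    ∃ lam : M, lam ≠ 0 ∧ ex q T lam = 0 := by
  obtain ⟨w, hw0, hw⟩ := exists_zero h hT 0
  exact ⟨w, hw0, hw.tsum_eq⟩

variable {F : Type} [Field F] [Fintype F] [Algebra F M]

theorem sep_step (hT : 1 < ‖T‖) {x y : M} (hx : IsSeparable (Kinf F T) x)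
    (h : x = T * y + y ^ Fintype.card F) : IsSeparable (Kinf F T) y := by
  have hT0 : T ≠ 0 := by rw [← norm_pos_iff]; linarith
  let S := separableClosure (Kinf F T) M
  let T' : S := algebraMap (Kinf F T) S ⟨T, K_le T_mem_K⟩
  let x' : S := ⟨x, mem_separableClosure_iff.2 hx⟩
  have hT' : algebraMap S M T' = T := rfl
  have hx' : algebraMap S M x' = x := rfl
  have hT1 : T' ≠ 0 := fun h => hT0 (by rw [← hT', h, map_zero])
  have hq : (Fintype.card F : S) = 0 := (algebraMap S M).injective (by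
    rw [map_natCast, map_zero, ← map_natCast (algebraMap F M), FiniteField.cast_card_eq_zero,
      map_zero])
  have h1 : (X ^ Fintype.card F + C T' * X - C x' : S[X]).Separable :=
    (separable_def' _).2 ⟨0, C T'⁻¹, by
      simp [derivative_X_pow, hq, ← C_mul, inv_mul_cancel₀ hT1]⟩
  refine IsSeparable.of_algebra_isSeparable_of_isSeparable _ (E := S)
    (h1.of_dvd (minpoly.dvd S _ ?_))
  simp only [map_sub, map_add, map_pow, map_mul, aeval_X, aeval_C, hT', hx']
  rw [h]; ring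

theorem small_mem (hF : Fr q M) (hT : 1 < ‖T‖) {L : Subfield M} (hL : IsClosed (L : Set M))
    (hTL : T ∈ L) {z : M} (hz : ‖z‖ ≤ 1) (h : ex q T z ∈ L) : z ∈ L := by
  let H : M →+ M := AddMonoidHom.mk' (ex q T) (ex_add hF hT)
  have hH : ∀ δ, ‖δ‖ ≤ 1 → ‖H δ - δ‖ ≤ ‖δ‖ / ‖T‖ := fun δ hδ => ex_small hF hT hδ
  obtain ⟨ε, h1, h2, h3⟩ := solve (r := 1) hT H hH (L := L.toAddSubgroup) hL
    (fun z (hz : z ∈ L) => tsum_mem (s := L) hL fun i => div_mem (pow_mem hz _) (D_mem' hTL _ _))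
    (x := H z) h (by
      rw [← sub_add_cancel (H _) z]
      exact norm_add_le' ((hH _ hz).trans ((div_le_self (norm_nonneg _) hT.le).trans hz)) hz)
  have h4 := hH _ (norm_sub_le' h2 hz)
  rw [map_sub, h3, sub_self, zero_sub, norm_neg] at h4
  have h5 : ε = z := by
    by_contra h5
    exact absurd h4 (not_le.2 (div_lt_self (norm_pos_iff.2 (sub_ne_zero.2 h5)) hT))
  exact h5 ▸ h1

theorem per_sep (hT : 1 < ‖T‖) {lam : M} (h : ex (Fintype.card F) T lam = 0) :
    IsSeparable (Kinf F T) lam := by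
  have hF := fr_card (M := M) F
  have hT0 : T ≠ 0 := by rw [← norm_pos_iff]; linarith
  have hx : ∀ n : ℕ, IsSeparable (Kinf F T) (ex (Fintype.card F) T (lam / T ^ n)) := by
    intro n
    induction n with
    | zero => rw [pow_zero, div_one, h]; exact mem_separableClosure_iff.1 (zero_mem _)
    | succ n ih =>
      refine sep_step hT ih ?_
      rw [← ex_T hF hT, show T * (lam / T ^ (n + 1)) = lam / T ^ n by field_simp; ring]
  obtain ⟨n, hn⟩ := exists_pow_ge hT ‖lam‖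
  have hz : ‖lam / T ^ n‖ ≤ 1 := by
    rw [norm_div, norm_pow]; exact div_le_one_of_le₀ hn (by positivity)
  let L := IntermediateField.adjoin (Kinf F T) {ex (Fintype.card F) T (lam / T ^ n)}
  have : FiniteDimensional (Kinf F T) L :=
    IntermediateField.adjoin.finiteDimensional (hx n).isIntegral
  have hTL : T ∈ L := L.algebraMap_mem ⟨T, K_le T_mem_K⟩
  have h1 : lam / T ^ n ∈ L := small_mem hF hT (L := L.toSubfield) (closed_of_fd hT L) hTL hz
    (IntermediateField.mem_adjoin_simple_self _ _)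
  have h2 : L ≤ separableClosure (Kinf F T) M :=
    IntermediateField.adjoin_simple_le_iff.2 (mem_separableClosure_iff.2 (hx n))
  refine mem_separableClosure_iff.1 (h2 ?_)
  rw [← div_mul_cancel₀ lam (pow_ne_zero n hT0)]
  exact L.mul_mem h1 (pow_mem hTL _)

end Pool.Agent.CF
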