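import Pool.Agent.Lib.MP_bf776f_nt.CF.Core

/-! Reduction to a finite separable extension of `K_∞`. -/

namespace Pool.Agent.CF

open Finset Filter Topology Polynomial

set_option linter.unusedSectionVars false

variable {F M : Type} [Field F] [Fintype F] [NormedField M] [Algebra F M] {κ : Type}

theorem aeval_mem (T : M) (p : F[X]) : aeval T p ∈ Ad F T p.natDegree := by
  rw [aeval_eq_sum_range]
  exact sum_mem fun i hi => Submodule.smul_mem _ _ (Ad_T (Nat.lt_succ_iff.1 (mem_range.1 hi)))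

theorem mid [IsUltrametricDist M] [CompleteSpace M] [Fintype κ] {K : Type} [Field K] [Algebra F K]
    [Algebra K M] [IsScalarTower F K M] {T : M} (hT : 1 < ‖T‖) (hT' : ∃ T' : K, algebraMap K M T' = T)
    (hK : ∀ x : K, ∃ r s : F[X], aeval T s ≠ 0 ∧ aeval T s * algebraMap K M x = aeval T r)
    (hS : ∀ E, Span (Fintype.card F ^ E) T) (hU : ∀ E, Uniq (Fintype.card F ^ E) T)
    (hq : Fintype.card κ + 3 ≤ Fintype.card F) {v y : κ → M} (hv : ∀ k, IsSeparable K (v k))
    {w : M} (hw0 : w ≠ 0) (hw : HasSum (sig (Fintype.card F) T w) 0) {s : ℕ}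
    (hy : w ^ Fintype.card F ^ s =
      ∑ k, v k * (y k ^ Fintype.card F) ^ Fintype.card F ^ s) : False := by
  have hF := fr_card (M := M) F
  have hK' : ∀ x : K, ∃ c, ∃ b ∈ Ad F T c, b ≠ 0 ∧ b * algebraMap K M x ∈ Ad F T c := by
    intro x
    obtain ⟨r, s, h1, h2⟩ := hK x
    exact ⟨r.natDegree + s.natDegree, _, Ad_mono (by omega) (aeval_mem T s), h1,
      by rw [h2]; exact Ad_mono (by omega) (aeval_mem T r)⟩
  let L := IntermediateField.adjoin K (Set.range v)
  have : FiniteDimensional K L := IntermediateField.finiteDimensional_adjoin (by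
    rintro _ ⟨k, rfl⟩; exact (hv k).isIntegral)
  have : Algebra.IsSeparable K L := (IntermediateField.isSeparable_adjoin_iff_isSeparable K M).2 (by
    rintro _ ⟨k, rfl⟩; exact hv k)
  obtain ⟨n, e, c, b, -, hb, hbL, hL, hcar⟩ := ldata hT hT' hK' L v
    fun k => IntermediateField.subset_adjoin _ _ ⟨k, rfl⟩
  choose z hz hz' using fun k => hcar s 0 1 (by simpa using Ad_one) k
  have h1 : b * w = ∑ k, z k 0 * y k ^ Fintype.card F := by
    have h2 := Uniq.eq hF (hU s) (y := fun r => if r = 0 then b * w else 0)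
      (z := fun r => ∑ k, z k r * y k ^ Fintype.card F) ?_ (hF.pos s)
    · simpa using h2
    rw [single_sum (hF.pos s), pow_zero, one_mul, mul_pow, hy, Finset.mul_sum]
    simp only [hF.sum, Finset.mul_sum]
    rw [Finset.sum_comm]
    refine Finset.sum_congr rfl fun k _ => ?_
    have := hz' k
    rw [mul_one] at this
    rw [← mul_assoc, this, Finset.sum_mul]
    exact Finset.sum_congr rfl fun r _ => by rw [mul_pow, mul_assoc]
  let u : Option κ → M := fun o => o.elim 1 fun k => z k 0 / b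
  obtain ⟨n, e, c, b', hH, hb', -, -, hcar⟩ := ldata hT hT' hK' L u (by
    rintro (_ | k)
    · exact one_mem _
    · exact div_mem (hL _ _ (hz k 0)) hbL)
  refine core hT hH hb' (k₀ := none) rfl hS hU hcar (by rw [Fintype.card_option]; omega) hw0 hw
    (y := fun o => o.elim 0 y) ?_
  rw [Fintype.sum_option]
  refine mul_left_cancel₀ hb ?_
  simp only [u, Option.elim_none, Option.elim_some, zero_pow Fintype.card_ne_zero, mul_zero,
    zero_add]
  rw [h1, Finset.mul_sum]
  exact Finset.sum_congr rfl fun k _ => by field_simp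

section transfer

variable {N : Type} [NormedField N] [Algebra F N] [Algebra N M] [FiniteDimensional N M]
  [Algebra.IsSeparable N M] {T : N}

theorem exists_basis (F : Type) [Field F] [Fintype F] [Algebra F N] (E : ℕ) :
    ∃ (n : ℕ) (B B' : Module.Basis (Fin n) N M), ∀ t, B' t = B t ^ Fintype.card F ^ E := by
  obtain ⟨p, hp, s, hpp, hs⟩ := FiniteField.card' F
  have : CharP N p := charP_of_injective_algebraMap (algebraMap F N).injective p
  have : ExpChar N p := ExpChar.prime hpp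
  refine ⟨_, Module.finBasis N M,
    (Module.finBasis N M).mapPowExpCharPowOfIsSeparable p (s * E), fun t => ?_⟩
  rw [hs, ← pow_mul]
  simp [Module.Basis.mapPowExpCharPowOfIsSeparable]

theorem span_transfer {E : ℕ} (h : Span (Fintype.card F ^ E) T) :
    Span (Fintype.card F ^ E) (algebraMap N M T) := by
  have hF := fr_card (M := M) F
  obtain ⟨n, B, B', hB⟩ := exists_basis (N := N) (M := M) F E
  intro z
  choose y hy using fun t => h (B'.repr z t)
  refine ⟨fun r => ∑ t, y t r • B t, ?_⟩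
  simp only [hF.sum, Finset.mul_sum]
  rw [Finset.sum_comm]
  conv_lhs => rw [← B'.sum_repr z]
  refine Finset.sum_congr rfl fun t _ => ?_
  rw [hy, Finset.sum_smul]
  refine Finset.sum_congr rfl fun r _ => ?_
  rw [hB, _root_.smul_pow, mul_smul, Algebra.smul_def, map_pow]

theorem uniq_transfer {E : ℕ} (h : Uniq (Fintype.card F ^ E) T) :
    Uniq (Fintype.card F ^ E) (algebraMap N M T) := by
  have hF := fr_card (M := M) F
  obtain ⟨n, B, B', hB⟩ := exists_basis (N := N) (M := M) F E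
  intro y hy r hr
  have h1 := Fintype.linearIndependent_iff.1 B'.linearIndependent
    (fun t => ∑ r ∈ range (Fintype.card F ^ E), T ^ r * B.repr (y r) t ^ Fintype.card F ^ E) (by
      rw [← hy]
      simp only [Finset.sum_smul]
      rw [Finset.sum_comm]
      refine Finset.sum_congr rfl fun r _ => ?_
      conv_rhs => rw [← B.sum_repr (y r), hF.sum, Finset.mul_sum]
      refine Finset.sum_congr rfl fun t _ => ?_
      rw [hB, _root_.smul_pow, mul_smul, Algebra.smul_def, map_pow])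
  refine B.repr.injective (Finsupp.ext fun t => ?_)
  rw [h (fun r => B.repr (y r) t) (h1 t) r hr]
  simp

end transfer

variable {T : M}

theorem T_mem_K : T ∈ K F T := IntermediateField.mem_adjoin_simple_self F T

theorem K_le : K F T ≤ Kinf F T := Subfield.le_topologicalClosure _

theorem alg_mem_K (c : F) : algebraMap F M c ∈ K F T :=
  (IntermediateField.adjoin F {T}).algebraMap_mem c

theorem K_frac {x : M} (hx : x ∈ K F T) :
    ∃ r s : F[X], aeval T s ≠ 0 ∧ aeval T s * x = aeval T r := by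
  obtain ⟨r, s, rfl⟩ := (IntermediateField.mem_adjoin_simple_iff F x).1 hx
  by_cases h : aeval T s = 0
  · exact ⟨0, 1, by simp, by simp [h]⟩
  · exact ⟨r, s, h, mul_div_cancel₀ _ h⟩

theorem Ad_K {d : ℕ} {a : M} (ha : a ∈ Ad F T d) : a ∈ K F T :=
  Sp_map LinearMap.id (IntermediateField.adjoin F {T}).toSubalgebra.toSubmodule
    (fun i _ _ => (IntermediateField.adjoin F {T}).mul_mem
      (pow_mem (IntermediateField.mem_adjoin_simple_self F T) i) (one_mem _)) ha

theorem K_span (E : ℕ) {x : M} (hx : x ∈ K F T) : ∃ y : ℕ → M, (∀ r, y r ∈ K F T) ∧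
    x = ∑ r ∈ range (Fintype.card F ^ E), T ^ r * y r ^ Fintype.card F ^ E := by
  have hF := fr_card (M := M) F
  obtain ⟨r, s, h1, h2⟩ := K_frac hx
  have h3 := Ad_mul (aeval_mem T r) (Ad_pow (aeval_mem T s) (Fintype.card F ^ E - 1))
  obtain ⟨y, hy, hy'⟩ := dec_of_Sp (E := E) (e := fun _ : Unit => (1 : M))
    (δ := r.natDegree + (Fintype.card F ^ E - 1) * s.natDegree) (by
      simp only [one_pow]
      exact Ad_mono (Nat.le_mul_of_pos_right _ (hF.pos E)) h3)
  refine ⟨fun i => y i / aeval T s, fun i => div_mem (Ad_K (hy i)) (Ad_K (aeval_mem T s)), ?_⟩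
  simp only [div_pow, ← mul_div_assoc]
  rw [← Finset.sum_div, ← hy', eq_div_iff (pow_ne_zero _ h1), ← h2]
  conv_lhs => rw [← Nat.sub_add_cancel (hF.pos E), pow_succ]
  ring

variable [IsUltrametricDist M]

theorem Kinf_norm (hT : 1 < ‖T‖) {x : M} (hx : x ∈ Kinf F T) (h0 : x ≠ 0) :
    ∃ n : ℤ, ‖x‖ = ‖T‖ ^ n := by
  obtain ⟨z, hz, hxz⟩ := Metric.mem_closure_iff.1 hx ‖x‖ (norm_pos_iff.2 h0)
  have h1 : ‖z‖ = ‖x‖ := by
    rw [dist_eq_norm] at hxz
    rw [← norm_sub_left hxz, sub_sub_cancel]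
  obtain ⟨r, s, h2, h3⟩ := K_frac hz
  have h4 : z ≠ 0 := by rw [← norm_ne_zero_iff, h1]; exact norm_ne_zero_iff.2 h0
  obtain ⟨i, hi⟩ := Ad_norm hT (aeval_mem T s) h2
  obtain ⟨j, hj⟩ := Ad_norm hT (aeval_mem T r) (h3 ▸ mul_ne_zero h2 h4)
  have hT0 : ‖T‖ ≠ 0 := by positivity
  refine ⟨j - i, ?_⟩
  rw [zpow_sub₀ hT0, zpow_natCast, zpow_natCast, ← hi, ← hj, ← h3, norm_mul, h1,
    mul_div_cancel_left₀ _ (norm_ne_zero_iff.2 h2)]

theorem Kinf_orth (hT : 1 < ‖T‖) {Q : ℕ} {y : ℕ → M} (hy : ∀ r, y r ∈ Kinf F T) {r : ℕ}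
    (hr : r < Q) : ‖y r‖ ^ Q ≤ ‖∑ r ∈ range Q, T ^ r * y r ^ Q‖ := by
  have hT0 : 0 < ‖T‖ := by linarith
  refine le_trans ?_ (orth (f := fun r => T ^ r * y r ^ Q) (fun a ha b hb hab h1 h2 h => hab ?_)
    (mem_range.2 hr))
  · rw [norm_mul, norm_pow, norm_pow]
    exact le_mul_of_one_le_left (by positivity) (one_le_pow₀ hT.le)
  · have hQ : Q ≠ 0 := by omega
    obtain ⟨m, hm⟩ := Kinf_norm hT (hy a) fun h => h1 (by simp [h, hQ])
    obtain ⟨n, hn⟩ := Kinf_norm hT (hy b) fun h => h2 (by simp [h, hQ])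
    simp only [norm_mul, norm_pow, hm, hn] at h
    simp only [← zpow_natCast, ← zpow_mul, ← zpow_add₀ hT0.ne'] at h
    have h3 := zpow_right_injective₀ hT0 hT.ne' h
    have h4 : (Q : ℤ) ∣ (a : ℤ) - b := ⟨n - m, by linarith⟩
    have h5 := mem_range.1 ha
    have h6 := mem_range.1 hb
    have := Int.eq_zero_of_abs_lt_dvd h4 (by rw [abs_lt]; constructor <;> omega)
    omega

theorem Kinf_uniq (hT : 1 < ‖T‖) (Q : ℕ) : Uniq Q (⟨T, K_le T_mem_K⟩ : Kinf F T) := by
  intro y hy r hr
  have h1 := Kinf_orth hT (y := fun r => (y r : M)) (fun r => (y r).2) hr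
  have h2 := congrArg Subtype.val hy
  push_cast at h2
  rw [h2, norm_zero] at h1
  exact Subtype.ext (norm_eq_zero.1 (pow_eq_zero_iff (show Q ≠ 0 by omega) |>.1
    (le_antisymm h1 (by positivity))))

theorem Kinf_span [CompleteSpace M] (hT : 1 < ‖T‖) (E : ℕ) :
    Span (Fintype.card F ^ E) (⟨T, K_le T_mem_K⟩ : Kinf F T) := by
  have hF := fr_card (M := M) F
  rintro ⟨z, hz⟩
  obtain ⟨x, hx, hxz⟩ := mem_closure_iff_seq_limit.1 hz
  choose y hy hy' using fun n => K_span E (hx n)
  have h1 : ∀ r < Fintype.card F ^ E, ∃ Y, Tendsto (fun n => y n r) atTop (𝓝 Y) := by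
    intro r hr
    refine cauchySeq_tendsto_of_complete (Metric.cauchySeq_iff.2 fun ε hε => ?_)
    obtain ⟨N, hN⟩ := Metric.cauchySeq_iff.1 hxz.cauchySeq (ε ^ Fintype.card F ^ E) (by positivity)
    refine ⟨N, fun m hm n hn => ?_⟩
    have h2 := hN m hm n hn
    have h3 := Kinf_orth hT (y := fun r => y m r - y n r)
      (fun r => K_le (sub_mem (hy m r) (hy n r))) hr
    simp only [hF.sub, mul_sub, Finset.sum_sub_distrib, ← hy'] at h3
    rw [dist_eq_norm] at h2 ⊢
    exact lt_of_pow_lt_pow_left₀ _ hε.le (h3.trans_lt h2)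
  choose! Y hY using h1
  have h2 : ∀ r < Fintype.card F ^ E, Y r ∈ Kinf F T := fun r hr =>
    mem_closure_of_tendsto (hY r hr) (Eventually.of_forall fun n => hy n r)
  refine ⟨fun r => if hr : r < Fintype.card F ^ E then ⟨Y r, h2 r hr⟩ else 0, Subtype.ext ?_⟩
  push_cast
  rw [Finset.sum_congr rfl (g := fun r => T ^ r * Y r ^ Fintype.card F ^ E) fun r hr => by
    rw [dif_pos (mem_range.1 hr)]]
  refine tendsto_nhds_unique hxz ?_
  rw [funext hy']
  exact tendsto_finsetSum _ fun r hr => ((hY r (mem_range.1 hr)).pow _).const_mul _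

theorem closed_of_fd [CompleteSpace M] (hT : 1 < ‖T‖) (L : IntermediateField (Kinf F T) M)
    [FiniteDimensional (Kinf F T) L] : IsClosed (L : Set M) := by
  have : CompleteSpace (Kinf F T) :=
    (Subfield.isClosed_topologicalClosure (K F T)).completeSpace_coe
  let _ : NontriviallyNormedField (Kinf F T) :=
    { SubfieldClass.toNormedField (Kinf F T) with non_trivial := ⟨⟨T, K_le T_mem_K⟩, hT⟩ }
  have : ContinuousSMul (Kinf F T) M := continuousSMul_of_algebraMap _ _ continuous_subtype_val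
  have : FiniteDimensional (Kinf F T) L.toSubalgebra.toSubmodule := ‹FiniteDimensional _ L›
  exact L.toSubalgebra.toSubmodule.closed_of_finiteDimensional

theorem D_mem' {S : Type} [SetLike S M] [SubfieldClass S M] {L : S} (hT : T ∈ L) (q i : ℕ) :
    D q T i ∈ L :=
  prod_mem fun _ _ => sub_mem (pow_mem hT _) (pow_mem hT _)

theorem descend [CompleteSpace M] {q : ℕ} (hF : Fr q M) (hT : 1 < ‖T‖) {S : Type} [SetLike S M]
    [SubfieldClass S M] {L : S} (hL : IsClosed (L : Set M)) (hTL : T ∈ L) {w : M}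
    (hw : HasSum (sig q T w) 0) (a : ℕ) (ha : w ^ q ^ a ∈ L) : w ∈ L := by
  induction a with
  | zero => simpa using ha
  | succ a ih =>
    refine ih ?_
    have h1 := (hF.hasSum a hw).summable.tsum_eq_zero_add
    rw [(hF.hasSum a hw).tsum_eq, zero_pow (hF.pos a).ne'] at h1
    have h2 : ∑' j, sig q T w (j + 1) ^ q ^ a ∈ L := tsum_mem hL fun j => by
      rw [sig, div_pow, ← pow_mul, ← pow_add, show j + 1 + a = a + 1 + j by ring, pow_add q _ j,
        pow_mul]
      exact div_mem (pow_mem ha _) (pow_mem (D_mem' hTL _ _) _)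
    have h3 : w ^ q ^ a = -(∑' j, sig q T w (j + 1) ^ q ^ a) * D q T 1 ^ q ^ a := by
      rw [← eq_neg_of_add_eq_zero_left h1.symm, sig, div_pow, pow_zero, pow_one, zero_add,
        div_mul_cancel₀ _ (pow_ne_zero _ (D_ne hF hT 1))]
    rw [h3]
    exact mul_mem (neg_mem h2) (pow_mem (D_mem' hTL _ _) _)

theorem exists_sep {K : Type} [Field K] [Algebra F K] [Algebra K M] {x : M}
    (hx : IsAlgebraic K x) : ∃ s, ∀ s' ≥ s, IsSeparable K (x ^ Fintype.card F ^ s') := by
  obtain ⟨p, hp, s, hpp, hs⟩ := FiniteField.card' F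
  have : CharP K p := charP_of_injective_algebraMap (algebraMap F K).injective p
  have : ExpChar K p := ExpChar.prime hpp
  obtain ⟨g, h1, n, h2⟩ := (minpoly.irreducible hx.isIntegral).hasSeparableContraction p
  have h3 : IsSeparable K (x ^ p ^ n) := h1.of_dvd <| minpoly.dvd K _ <| by
    simpa only [expand_aeval, minpoly.aeval] using congr_arg (aeval x) h2
  refine ⟨n, fun s' hs' => ?_⟩
  have h4 : n ≤ s * s' := hs'.trans (Nat.le_mul_of_pos_left _ s.pos)
  rw [hs, ← pow_mul, ← Nat.add_sub_cancel' h4, pow_add, pow_mul]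
  exact mem_separableClosure_iff.1 (pow_mem (mem_separableClosure_iff.2 h3) _)

theorem sig_sum [CompleteSpace M] {q : ℕ} (hF : Fr q M) (hT : 1 < ‖T‖) {ϱ : M}
    (h : ex q T ϱ = ϱ) : HasSum (sig q T (ϱ ^ q)) 0 := by
  have h1 := (summable_ex hF hT ϱ).hasSum
  rw [← ex, h] at h1
  refine hs_congr ((hasSum_nat_add_iff' 1).2 h1) (fun j => ?_) (by simp [D])
  rw [sig, ← pow_mul, ← pow_succ']

theorem red [CompleteSpace M] [Fintype κ] (hT : 1 < ‖T‖)
    (hq : Fintype.card κ + 3 ≤ Fintype.card F) {ϱ : M} (h0 : ϱ ≠ 0)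
    (h : ex (Fintype.card F) T ϱ = ϱ) {u y : κ → M} (hu : ∀ k, IsAlgebraic (K F T) (u k))
    (hy : ∀ k, IsSeparable (Kinf F T) (y k)) : ϱ ≠ ∑ k, u k * y k := by
  intro hϱ
  have hF := fr_card (M := M) F
  let _ : Algebra F (K F T) := ((algebraMap F M).codRestrict (K F T) alg_mem_K).toAlgebra
  let _ : Algebra F (Kinf F T) :=
    ((algebraMap F M).codRestrict (Kinf F T) fun c => K_le (alg_mem_K c)).toAlgebra
  let _ : Algebra (K F T) (Kinf F T) := (Subfield.inclusion K_le).toAlgebra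
  have : IsScalarTower (K F T) (Kinf F T) M := IsScalarTower.of_algebraMap_eq fun _ => rfl
  choose s₀ hs₀ using fun k => exists_sep (F := F) (hu k)
  set s := ∑ k, s₀ k with hs
  let v : κ → M := fun k => u k ^ Fintype.card F ^ (s + 1)
  have hv : ∀ k, IsSeparable (K F T) (v k) := fun k => hs₀ k _
    ((Finset.single_le_sum (f := s₀) (fun _ _ => Nat.zero_le _) (mem_univ k)).trans (Nat.le_succ _))
  let L := IntermediateField.adjoin (Kinf F T) (Set.range (Sum.elim v y))
  have hsep : ∀ x ∈ Set.range (Sum.elim v y), IsSeparable (Kinf F T) x := by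
    rintro _ ⟨k | k, rfl⟩
    · exact (hv k).tower_top _
    · exact hy k
  have : FiniteDimensional (Kinf F T) L :=
    IntermediateField.finiteDimensional_adjoin fun x hx => (hsep x hx).isIntegral
  have : Algebra.IsSeparable (Kinf F T) L :=
    (IntermediateField.isSeparable_adjoin_iff_isSeparable _ M).2 hsep
  have hL := closed_of_fd hT L
  have : CompleteSpace L := hL.completeSpace_coe
  have hKL : ∀ x ∈ K F T, x ∈ L := fun x hx => L.algebraMap_mem ⟨x, K_le hx⟩
  have hvL : ∀ k, v k ∈ L := fun k => IntermediateField.subset_adjoin _ _ ⟨Sum.inl k, rfl⟩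
  have hyL : ∀ k, y k ∈ L := fun k => IntermediateField.subset_adjoin _ _ ⟨Sum.inr k, rfl⟩
  let _ : Algebra F L := ((algebraMap F M).codRestrict L fun c => hKL _ (alg_mem_K c)).toAlgebra
  let _ : Algebra (K F T) L := ((K F T).subtype.codRestrict L fun c => hKL _ c.2).toAlgebra
  have : IsScalarTower F (K F T) L := IsScalarTower.of_algebraMap_eq fun _ => rfl
  have : IsScalarTower (K F T) L M := IsScalarTower.of_algebraMap_eq fun _ => rfl
  have : IsScalarTower F L M := IsScalarTower.of_algebraMap_eq fun _ => rfl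
  have hw := sig_sum hF hT h
  have hws : (ϱ ^ Fintype.card F) ^ Fintype.card F ^ s =
      ∑ k, v k * (y k ^ Fintype.card F) ^ Fintype.card F ^ s := by
    rw [← pow_mul, ← pow_succ', hϱ, hF.sum]
    exact Finset.sum_congr rfl fun k _ => by rw [mul_pow, ← pow_mul (y k), ← pow_succ']
  have hwL : ϱ ^ Fintype.card F ∈ L := descend hF hT hL (hKL _ T_mem_K) hw s (by
    rw [hws]
    exact sum_mem fun k _ => mul_mem (hvL k) (pow_mem (pow_mem (hyL k) _) _))
  let T' : L := ⟨T, hKL _ T_mem_K⟩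
  have hT1 : 1 < ‖T'‖ := hT
  have hT2 : algebraMap (Kinf F T) L ⟨T, K_le T_mem_K⟩ = T' := rfl
  have a1 : ∀ E, Span (Fintype.card F ^ E) T' := fun E => by
    rw [← hT2]; exact span_transfer (F := F) (Kinf_span hT E)
  have a2 : ∀ E, Uniq (Fintype.card F ^ E) T' := fun E => by
    rw [← hT2]; exact uniq_transfer (F := F) (Kinf_uniq hT _)
  have a3 : ∀ k, IsSeparable (K F T) (⟨v k, hvL k⟩ : L) := fun k =>
    IsSeparable.tower_bot (E := M) (hv k)
  have a4 : ∀ x : K F T, ∃ r s : F[X],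
      aeval T' s ≠ 0 ∧ aeval T' s * algebraMap (K F T) L x = aeval T' r := by
    intro x
    obtain ⟨r, s, h1, h2⟩ := K_frac x.2
    have h3 : ∀ p : F[X], algebraMap L M (aeval T' p) = aeval T p :=
      fun p => (aeval_algebraMap_apply M _ p).symm
    refine ⟨r, s, fun h => h1 (by rw [← h3, h, map_zero]), (algebraMap L M).injective ?_⟩
    rw [map_mul, h3, h3]
    exact h2
  have a5 : HasSum (sig (Fintype.card F) T' ⟨_, hwL⟩) 0 := by
    refine ((Topology.IsInducing.subtypeVal.hasSum_iff (g := algebraMap L M)) _ _).1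
      (hs_congr hw (fun j => ?_) (map_zero _))
    simp [sig, D, T']
  have a6 : (⟨_, hwL⟩ : L) ≠ 0 := fun h1 => h0 (pow_eq_zero_iff Fintype.card_ne_zero |>.1
    (congrArg Subtype.val h1))
  have a7 : (⟨_, hwL⟩ : L) ^ Fintype.card F ^ s = ∑ k, (⟨v k, hvL k⟩ : L) *
      ((⟨y k, hyL k⟩ : L) ^ Fintype.card F) ^ Fintype.card F ^ s := by
    refine (algebraMap L M).injective ?_
    simpa using hws
  exact mid hT1 ⟨⟨T, T_mem_K⟩, rfl⟩ a4 a1 a2 hq a3 a6 a5 a7

end Pool.Agent.CF
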