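import Pool.Agent.Lib.MP_bf776f_nt.CF.Ld
import Pool.Agent.Lib.MP_bf776f_nt.CF.Gap

/-! The auxiliary functional: a dimension count over the finite field. -/

namespace Pool.Agent.CF

open Finset

set_option linter.unusedSectionVars false

variable {F M : Type} [NormedField M] {q : ℕ} {T : M} {ι κ : Type}

/-- Every element is `∑_{r < Q} T^r y_r^Q`. -/
def Span (Q : ℕ) (T : M) : Prop := ∀ z : M, ∃ y : ℕ → M, z = ∑ r ∈ range Q, T ^ r * y r ^ Q

/-- The expansion `∑_{r < Q} T^r y_r^Q` is unique. -/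
def Uniq (Q : ℕ) (T : M) : Prop :=
  ∀ y : ℕ → M, ∑ r ∈ range Q, T ^ r * y r ^ Q = 0 → ∀ r < Q, y r = 0

theorem Uniq.eq (h : Fr q M) {E : ℕ} (hU : Uniq (q ^ E) T) {y z : ℕ → M}
    (hyz : ∑ r ∈ range (q ^ E), T ^ r * y r ^ q ^ E = ∑ r ∈ range (q ^ E), T ^ r * z r ^ q ^ E)
    {r : ℕ} (hr : r < q ^ E) : y r = z r := by
  refine sub_eq_zero.1 (hU (fun r => y r - z r) ?_ r hr)
  rw [← sub_eq_zero, ← Finset.sum_sub_distrib] at hyz
  rw [← hyz]
  exact Finset.sum_congr rfl fun r _ => by rw [h.sub, mul_sub]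

theorem single_sum {Q r : ℕ} (hr : r < Q) (z : M) :
    ∑ r' ∈ range Q, T ^ r' * (if r' = r then z else 0) ^ Q = T ^ r * z ^ Q := by
  rw [Finset.sum_eq_single r]
  · simp
  · intro b _ hb
    simp [hb, zero_pow (show Q ≠ 0 by omega)]
  · intro h
    exact absurd (mem_range.2 hr) h

theorem exLam (h : Fr q M) {E : ℕ} (hS : Span (q ^ E) T) (hU : Uniq (q ^ E) T) (lam : ℕ → M) :
    ∃ Λ : M →+ M, Semi (q ^ E) Λ ∧ (∀ r < q ^ E, Λ (T ^ r) = lam r) ∧
      ∀ y : ℕ → M, Λ (∑ r ∈ range (q ^ E), T ^ r * y r ^ q ^ E) =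
        ∑ r ∈ range (q ^ E), lam r * y r := by
  choose U hUz using hS
  have key : ∀ y : ℕ → M, ∑ r ∈ range (q ^ E),
      lam r * U (∑ r ∈ range (q ^ E), T ^ r * y r ^ q ^ E) r =
        ∑ r ∈ range (q ^ E), lam r * y r := fun y =>
    Finset.sum_congr rfl fun r hr => by rw [Uniq.eq h hU (hUz _).symm (mem_range.1 hr)]
  let Λ : M →+ M := AddMonoidHom.mk' (fun z => ∑ r ∈ range (q ^ E), lam r * U z r) fun a b => by
    have h1 : a + b = ∑ r ∈ range (q ^ E), T ^ r * (U a r + U b r) ^ q ^ E := by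
      conv_lhs => rw [hUz a, hUz b, ← Finset.sum_add_distrib]
      exact Finset.sum_congr rfl fun r _ => by rw [h.add, mul_add]
    rw [h1, key, ← Finset.sum_add_distrib]
    exact Finset.sum_congr rfl fun r _ => mul_add _ _ _
  have hΛ : ∀ z, Λ z = ∑ r ∈ range (q ^ E), lam r * U z r := fun _ => rfl
  refine ⟨Λ, fun k z => ?_, fun r hr => ?_, fun y => key y⟩
  · have h1 : k ^ q ^ E * z = ∑ r ∈ range (q ^ E), T ^ r * (k * U z r) ^ q ^ E := by
      conv_lhs => rw [hUz z, Finset.mul_sum]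
      exact Finset.sum_congr rfl fun r _ => by rw [mul_pow]; ring
    rw [h1, hΛ, key, hΛ, Finset.mul_sum]
    exact Finset.sum_congr rfl fun r _ => by ring
  · have h1 := single_sum (T := T) hr 1
    rw [one_pow, mul_one] at h1
    rw [← h1, hΛ, key, Finset.sum_eq_single r]
    · simp
    · intro b _ hb
      simp [hb]
    · intro h
      exact absurd (mem_range.2 hr) h

theorem kill_of (h : Fr q M) {E j : ℕ} (hj : j ≤ E) (hS : Span (q ^ (E - j)) T) {Λ : M →+ M}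
    (hΛ : Semi (q ^ E) Λ) {b A d u : M} (hb : b ≠ 0) (hd : d ≠ 0)
    (hk : ∀ i < q ^ (E - j), Λ (b ^ q ^ E * (u * (A * d ^ (q ^ E - 1) * (T ^ i) ^ q ^ j))) = 0)
    (z : M) : Λ (A / d * u * z ^ q ^ j) = 0 := by
  obtain ⟨y, rfl⟩ := hS z
  rw [h.sum, Finset.mul_sum, map_sum]
  refine Finset.sum_eq_zero fun i hi => ?_
  have e1 : d ^ q ^ E = d ^ (q ^ E - 1) * d := by
    rw [← pow_succ, Nat.sub_add_cancel (h.pos E)]
  have e2 : A / d * u * (T ^ i * y i ^ q ^ (E - j)) ^ q ^ j = (y i / (b * d)) ^ q ^ E *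
      (b ^ q ^ E * (u * (A * d ^ (q ^ E - 1) * (T ^ i) ^ q ^ j))) := by
    rw [mul_pow, ← pow_mul (y i), ← pow_add, Nat.sub_add_cancel hj, div_pow, mul_pow, e1]
    field_simp
  rw [e2, hΛ, hk i (mem_range.1 hi), mul_zero]

variable [Field F] [Fintype F] [Algebra F M]

theorem siegel [Fintype ι] [Fintype κ] {e : ι → M} {c E m N h : ℕ} (hH : Ht F T e c)
    (hS : Span (Fintype.card F ^ E) T) (hU : Uniq (Fintype.card F ^ E) T)
    (hm : m + N = Fintype.card F ^ E) (x : κ → M) (δ : κ → ℕ)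
    (hx : ∀ i, x i ∈ Dec T E (Sp F T e (δ i))) (hc : ∑ i, (h + δ i + c + 1) < N * (h + 1)) :
    ∃ Λ : M →+ M, Semi (Fintype.card F ^ E) Λ ∧ (∀ r < m, Λ (T ^ r) = 0) ∧
      (∀ r < Fintype.card F ^ E, Λ (T ^ r) ∈ Sp F T e h) ∧
      (∃ r < Fintype.card F ^ E, Λ (T ^ r) ≠ 0) ∧ ∀ i, Λ (x i) = 0 := by
  choose y hy hxy using hx
  let Φ : (Fin N → Sp F T e h) →ₗ[F] ∀ i, Sp F T e (h + δ i + c) :=
    LinearMap.pi fun i => LinearMap.codRestrict _ (∑ r : Fin N,
      LinearMap.mulRight F (y i (m + r)) ∘ₗ (Sp F T e h).subtype ∘ₗ LinearMap.proj r) fun v => by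
        rw [LinearMap.sum_apply]
        exact sum_mem fun r _ => Sp_mul hH.mul (v r).2 (hy i _)
  have hn : 0 < Fintype.card ι := Fintype.card_pos_iff.2 hH.ne
  have hker := LinearMap.ker_ne_bot_of_finrank_lt (f := Φ) (by
    simp only [Module.finrank_pi_fintype, hH.rank, sum_const, card_univ, Fintype.card_fin,
      smul_eq_mul]
    rw [← Finset.sum_mul, ← mul_assoc]
    exact Nat.mul_lt_mul_of_pos_right hc hn)
  obtain ⟨v, hv, hv0⟩ := (Submodule.ne_bot_iff _).1 hker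
  let lam : ℕ → M := fun r => if hr : r - m < N ∧ m ≤ r then (v ⟨r - m, hr.1⟩ : M) else 0
  have hl : ∀ r : Fin N, lam (m + r) = v r := fun r => by
    simp only [lam]
    rw [dif_pos ⟨by simp, by omega⟩]
    congr 2
    exact Fin.ext (by simp)
  have hl0 : ∀ r < m, lam r = 0 := fun r hr => dif_neg (by omega)
  obtain ⟨Λ, h1, h2, h3⟩ := exLam (fr_card F) hS hU lam
  refine ⟨Λ, h1, fun r hr => by rw [h2 r (by omega), hl0 r hr], fun r hr => ?_, ?_, fun i => ?_⟩
  · rw [h2 r hr]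
    simp only [lam]
    split_ifs
    · exact (v _).2
    · exact zero_mem _
  · obtain ⟨r, hr⟩ := Function.ne_iff.1 hv0
    refine ⟨m + r, by omega, ?_⟩
    rw [h2 _ (by omega), hl]
    exact fun h => hr (Subtype.ext h)
  · have h4 := congrArg Subtype.val (congrFun (LinearMap.mem_ker.1 hv) i)
    simp only [Φ, LinearMap.pi_apply, LinearMap.codRestrict_apply, LinearMap.sum_apply,
      LinearMap.comp_apply, LinearMap.mulRight_apply, Submodule.subtype_apply,
      LinearMap.proj_apply, Pi.zero_apply, Submodule.coe_zero] at h4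
    rw [hxy i, h3, ← hm, Finset.sum_range_add, Finset.sum_eq_zero fun r hr => by
      rw [hl0 r (mem_range.1 hr), zero_mul], zero_add, ← h4,
      ← Fin.sum_univ_eq_sum_range (fun r => lam (m + r) * y i (m + r))]
    exact Finset.sum_congr rfl fun r _ => by rw [hl]

theorem geom_bd {q : ℕ} (hq : 3 ≤ q) (n : ℕ) : 2 * ∑ i ∈ range n, q ^ i + 1 ≤ q ^ n := by
  induction n with
  | zero => simp
  | succ n ih => rw [Finset.sum_range_succ, pow_succ]; nlinarith [Nat.zero_le (q ^ n)]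

theorem fam_count {q E s k h c : ℕ} (hq : 1 ≤ q) :
    ∑ x : Σ i : Fin (E - s), Fin (k + 1) × Fin (q ^ (E - s - 1 - i)),
      (h + (E + (s + x.1 + 2) * q ^ (s + x.1 + 2) + 2 + c) + c + 1) ≤
    (k + 1) * ((∑ i ∈ range (E - s), q ^ i) * (h + 1) + E * (q * q ^ E * (2 * E + 3 + 2 * c))) := by
  rw [Fintype.sum_sigma]
  simp only [sum_const, card_univ, Fintype.card_prod, Fintype.card_fin, smul_eq_mul]
  have h1 : ∀ i : Fin (E - s), (k + 1) * q ^ (E - s - 1 - i) *
      (h + (E + (s + i + 2) * q ^ (s + i + 2) + 2 + c) + c + 1) ≤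
      (k + 1) * (q ^ (E - s - 1 - i) * (h + 1) + q * q ^ E * (2 * E + 3 + 2 * c)) := by
    intro i
    have hi := i.2
    rw [mul_assoc]
    refine Nat.mul_le_mul_left _ ?_
    have h2 : q * q ^ E = q ^ (E - s - 1 - i) * q ^ (s + i + 2) := by
      rw [← pow_add, ← pow_succ']; congr 1; omega
    have h3 : 1 ≤ q ^ (s + i + 2) := Nat.one_le_pow _ _ hq
    have h4 : (s + i + 2) * q ^ (s + i + 2) ≤ (E + 1) * q ^ (s + i + 2) :=
      Nat.mul_le_mul_right _ (by omega)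
    have h5 : E + (s + i + 2) * q ^ (s + i + 2) + 2 + c + c ≤
        q ^ (s + i + 2) * (2 * E + 3 + 2 * c) := by nlinarith
    have h6 := Nat.mul_le_mul_left (q ^ (E - s - 1 - i)) h5
    rw [h2]
    nlinarith
  refine (Finset.sum_le_sum fun i _ => h1 i).trans ?_
  rw [← Finset.mul_sum, Finset.sum_add_distrib, ← Finset.sum_mul, sum_const, card_univ,
    Fintype.card_fin, Fin.sum_univ_eq_sum_range (fun i => q ^ (E - s - 1 - i)),
    Finset.sum_range_reflect (q ^ ·), smul_eq_mul]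
  gcongr
  omega

theorem total_count {q X m N G G' n k H O₁ O₂ : ℕ} (hN : m + N = q * X) (hn : n + 2 ≤ q)
    (hG : 2 * G ≤ 3 * X) (hG' : 8 * ((k + 1) * G') ≤ X) (hm : 8 * m ≤ X) (hX : 0 < X)
    (hH : 8 * q * (O₁ + (k + 2) * O₂) < H) :
    n * X * (H + O₁) + ((0 + 1) * (G * H + q * X * O₂) + (k + 1) * (G' * H + q * X * O₂)) <
      N * H := by
  have a1 : (n + 2) * (X * H) ≤ q * (X * H) := Nat.mul_le_mul_right _ hn
  have a2 : n * (X * O₁) ≤ q * (X * O₁) := Nat.mul_le_mul_right _ (by omega)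
  have a3 := Nat.mul_le_mul_right H hG
  have a4 := Nat.mul_le_mul_right H hG'
  have a5 := Nat.mul_le_mul_right H hm
  have a6 := Nat.mul_lt_mul_of_pos_left hH hX
  have a7 : m * H + N * H = q * (X * H) := by rw [← add_mul, hN, mul_assoc]
  nlinarith

theorem ell_mem (E : ℕ) : ell (Fintype.card F) T E ∈ Ad F T (E * Fintype.card F ^ E) := by
  have hF := fr_card (M := M) F
  refine Ad_mono (Nat.mul_le_mul_right _ (card_erase_le.trans (card_range E).le))
    (Ad_prod _ fun v hv => sub_mem ?_ (Ad_T (hF.le (mem_range.1 (mem_of_mem_erase hv)).le)))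
  simpa using Ad_T (F := F) (T := T) (hF.pos E)

theorem D_mem (i : ℕ) : D (Fintype.card F) T i ∈ Ad F T (i * Fintype.card F ^ i) := by
  have hF := fr_card (M := M) F
  have := Ad_prod (F := F) (T := T) (range i) (d := Fintype.card F ^ i)
    (f := fun u => T ^ Fintype.card F ^ i - T ^ Fintype.card F ^ u)
    fun v hv => sub_mem (Ad_T le_rfl) (Ad_T (hF.le (mem_range.1 hv).le))
  rwa [card_range] at this

end Pool.Agent.CF
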